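import Pool.Agent.Helper28.VF.Defs

/-!
Local structure of a Schnyder labelling: crossings are unique, tree edges and cotree edges, and the
numbers of intervals around vertices and faces.
-/

namespace Helper28.VF

open Finset Equiv

set_option linter.unusedSectionVars false
set_option linter.unusedSimpArgs false
set_option linter.unnecessarySimpa false

lemma pw1 : ∀ z x : ZMod 3, ((if z + 1 = x + 1 then (1 : ℤ) else 0) - if z = x + 1 then 1 else 0) =
    (if z + 1 = x + 1 then 1 else 0) - if z + 1 = x + 2 then 1 else 0 := by decide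

lemma pw2 : ∀ z x : ZMod 3, ((if z + 1 = x + 1 then (1 : ℤ) else 0) - if z = x + 1 then 1 else 0) =
    (if z = x then 1 else 0) - if z = x + 1 then 1 else 0 := by decide

section
variable {D V E F : Type} [Fintype D] [Fintype V] [Fintype E] [Fintype F]
  [DecidableEq D] [DecidableEq V] [DecidableEq E] [DecidableEq F]

section PMlemmas
variable (M : PM D V E F)

lemma PM.vt_σ (d : D) : M.vt (M.σ d) = M.vt d :=
  ((M.vt_iff _ _).2 ⟨1, by simp⟩).symm

lemma PM.fc_φ (d : D) : M.fc (M.σ (M.α d)) = M.fc d :=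
  ((M.fc_iff _ _).2 ⟨1, by simp⟩).symm

lemma PM.fc_σ (d : D) : M.fc (M.σ d) = M.fc (M.α d) := by
  have := M.fc_φ (M.α d)
  rwa [M.α_inv] at this

lemma PM.ed_α (d : D) : M.ed (M.α d) = M.ed d :=
  ((M.ed_iff _ _).2 (Or.inr rfl)).symm

end PMlemmas

/-- Counting label crossings along a permutation. -/
lemma crossing (s : Finset D) (τ : Perm D) (hτ : ∀ d, τ d ∈ s ↔ d ∈ s) (l : D → ZMod 3)
    (o sp : D → ℕ) (ho : ∀ d, o d ≤ 1) (hsp : ∀ d, sp d ≤ 1)
    (hl : ∀ d ∈ s, l (τ d) = l d + (o d : ZMod 3) + (sp (τ d) : ZMod 3)) (x : ZMod 3) :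
    (s.filter (fun d => o d = 1 ∧ l d = x)).card +
      (s.filter (fun d => sp d = 1 ∧ l d = x + 1)).card =
    (s.filter (fun d => o d = 1 ∧ l d = x + 1)).card +
      (s.filter (fun d => sp d = 1 ∧ l d = x + 2)).card := by
  classical
  have e1 : ∑ d ∈ s, (if l (τ d) = x + 1 then (1 : ℤ) else 0) =
      ∑ d ∈ s, (if l d = x + 1 then (1 : ℤ) else 0) := by
    refine Finset.sum_bij (fun d _ => τ d) (fun d hd => (hτ d).2 hd)
      (fun a _ b _ hab => τ.injective hab) (fun b hb => ?_) (fun d _ => rfl)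
    exact ⟨τ.symm b, (hτ _).1 (by simpa using hb), by simp⟩
  have e2 : ∑ d ∈ s, ((if l (τ d) = x + 1 then (1 : ℤ) else 0) -
      (if l d + (o d : ZMod 3) = x + 1 then (1 : ℤ) else 0)) =
      ∑ d ∈ s, ((if sp d = 1 ∧ l d = x + 1 then (1 : ℤ) else 0) -
      (if sp d = 1 ∧ l d = x + 2 then (1 : ℤ) else 0)) := by
    have : ∀ d ∈ s, ((if l (τ d) = x + 1 then (1 : ℤ) else 0) -
      (if l d + (o d : ZMod 3) = x + 1 then (1 : ℤ) else 0)) =
      ((if sp (τ d) = 1 ∧ l (τ d) = x + 1 then (1 : ℤ) else 0) -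
      (if sp (τ d) = 1 ∧ l (τ d) = x + 2 then (1 : ℤ) else 0)) := by
      intro d hd
      have h1 := hl d hd
      have h2 := hsp (τ d)
      generalize hy : l (τ d) = y at *
      generalize hz : l d + (o d : ZMod 3) = z at *
      interval_cases hh : sp (τ d)
      · simp at h1
        simp [h1]
      · simp at h1
        subst h1
        simpa using pw1 z x
    rw [Finset.sum_congr rfl this]
    refine Finset.sum_bij (fun d _ => τ d) (fun d hd => (hτ d).2 hd)
      (fun a _ b _ hab => τ.injective hab) (fun b hb => ?_) (fun d _ => rfl)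
    exact ⟨τ.symm b, (hτ _).1 (by simpa using hb), by simp⟩
  have e3 : ∀ d ∈ s, ((if l d + (o d : ZMod 3) = x + 1 then (1 : ℤ) else 0) -
      (if l d = x + 1 then (1 : ℤ) else 0)) =
      ((if o d = 1 ∧ l d = x then (1 : ℤ) else 0) -
      (if o d = 1 ∧ l d = x + 1 then (1 : ℤ) else 0)) := by
    intro d _
    have h2 := ho d
    generalize l d = z at *
    interval_cases hh : o d
    · simp
    · simpa using pw2 z x
  have e4 := Finset.sum_congr rfl e3
  rw [Finset.sum_sub_distrib, Finset.sum_sub_distrib] at e4 e2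
  simp only [Finset.sum_boole] at e1 e2 e4
  have : ((s.filter (fun d => o d = 1 ∧ l d = x)).card : ℤ) +
      ((s.filter (fun d => sp d = 1 ∧ l d = x + 1)).card : ℤ) =
    ((s.filter (fun d => o d = 1 ∧ l d = x + 1)).card : ℤ) +
      ((s.filter (fun d => sp d = 1 ∧ l d = x + 2)).card : ℤ) := by linarith
  exact_mod_cast this

/-- The indicator of the special darts. -/
def spc (s₁ s₂ s₃ d : D) : ℕ := if d = s₁ ∨ d = s₂ ∨ d = s₃ then 1 else 0

variable {M : PM D V E F} {s₁ s₂ s₃ : D} {o os : D → ℕ} {l : D → ZMod 3}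

namespace Sch

variable (h : Sch M s₁ s₂ s₃ o os l)
include h

lemma l_φ (d : D) : l (M.σ (M.α d)) + (os d : ZMod 3) = l d +
    (if M.σ (M.α d) = s₁ ∨ M.σ (M.α d) = s₂ ∨ M.σ (M.α d) = s₃ then 1 else 0) := by
  have h1 := h.l_σ (M.α d)
  have h2 := h.l_α d
  have h3 := h.four d
  have h4 : ((o d + o (M.α d) + os d + os (M.α d) : ℕ) : ZMod 3) = 0 := by rw [h3]; rfl
  push_cast at h4
  rw [h1, h2]
  linear_combination h4

lemma filt_card (v : V) :
    ((univ.filter (fun d => M.vt d = v)).filter (fun d => o d = 1)).card =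
      if v = M.vt s₁ ∨ v = M.vt s₂ ∨ v = M.vt s₃ then 2 else 3 := by
  rw [← h.o_sum v, Finset.card_filter]
  refine Finset.sum_congr rfl (fun d _ => ?_)
  have := h.o_le d
  interval_cases o d <;> simp

lemma sp_card (v : V) (x : ZMod 3) :
    ((univ.filter (fun d => M.vt d = v)).filter (fun d => spc s₁ s₂ s₃ d = 1 ∧ l d = x)).card =
      if (x = 0 ∧ v = M.vt s₁) ∨ (x = 1 ∧ v = M.vt s₂) ∨ (x = 2 ∧ v = M.vt s₃) then 1 else 0 := by
  have hs1 := h.l_s₁
  have hs2 := h.l_s₂
  have hs3 := h.l_s₃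
  have key : ∀ d, spc s₁ s₂ s₃ d = 1 ↔ d = s₁ ∨ d = s₂ ∨ d = s₃ := by
    intro d; unfold spc; split_ifs <;> simp_all
  have hx : x = 0 ∨ x = 1 ∨ x = 2 := by
    revert x; decide
  split_ifs with hc
  · rw [Finset.card_eq_one]
    rcases hc with ⟨rfl, rfl⟩ | ⟨rfl, rfl⟩ | ⟨rfl, rfl⟩
    · refine ⟨s₁, ?_⟩
      ext d
      simp only [mem_filter, mem_univ, true_and, mem_singleton, key]
      constructor
      · rintro ⟨-, rfl | rfl | rfl, h2⟩
        · rfl
        · rw [hs2] at h2; exact absurd h2 (by decide)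
        · rw [hs3] at h2; exact absurd h2 (by decide)
      · rintro rfl; exact ⟨rfl, Or.inl rfl, hs1⟩
    · refine ⟨s₂, ?_⟩
      ext d
      simp only [mem_filter, mem_univ, true_and, mem_singleton, key]
      constructor
      · rintro ⟨-, rfl | rfl | rfl, h2⟩
        · rw [hs1] at h2; exact absurd h2 (by decide)
        · rfl
        · rw [hs3] at h2; exact absurd h2 (by decide)
      · rintro rfl; exact ⟨rfl, Or.inr (Or.inl rfl), hs2⟩
    · refine ⟨s₃, ?_⟩
      ext d
      simp only [mem_filter, mem_univ, true_and, mem_singleton, key]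
      constructor
      · rintro ⟨-, rfl | rfl | rfl, h2⟩
        · rw [hs1] at h2; exact absurd h2 (by decide)
        · rw [hs2] at h2; exact absurd h2 (by decide)
        · rfl
      · rintro rfl; exact ⟨rfl, Or.inr (Or.inr rfl), hs3⟩
  · rw [Finset.card_eq_zero, Finset.filter_eq_empty_iff]
    intro d hd
    simp only [mem_filter, mem_univ, true_and] at hd
    rw [key]
    rintro ⟨rfl | rfl | rfl, h2⟩
    · exact hc (Or.inl ⟨h2.symm.trans hs1, hd.symm⟩)
    · exact hc (Or.inr (Or.inl ⟨h2.symm.trans hs2, hd.symm⟩))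
    · exact hc (Or.inr (Or.inr ⟨h2.symm.trans hs3, hd.symm⟩))

/-- Around every vertex each label is left exactly once, by a dart or by a special corner. -/
lemma ev (v : V) (x : ZMod 3) :
    ((univ.filter (fun d => M.vt d = v)).filter (fun d => o d = 1 ∧ l d = x)).card +
      (if (x = 2 ∧ v = M.vt s₁) ∨ (x = 0 ∧ v = M.vt s₂) ∨ (x = 1 ∧ v = M.vt s₃) then 1 else 0)
      = 1 := by
  have hsp : ∀ d, spc s₁ s₂ s₃ d ≤ 1 := by intro d; unfold spc; split_ifs <;> simp
  have hc := fun x => crossing (univ.filter (fun d => M.vt d = v)) M.σ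
    (fun d => by simp [M.vt_σ]) l o (spc s₁ s₂ s₃) h.o_le hsp (fun d _ => by
      rw [h.l_σ d]; unfold spc; split_ifs <;> simp) x
  have hp : ∀ y, ((univ.filter (fun d => M.vt d = v)).filter (fun d => o d = 1 ∧ l d = y)).card =
      (((univ.filter (fun d => M.vt d = v)).filter (fun d => o d = 1)).filter
        (fun d => l d = y)).card := by
    intro y; simp only [Finset.filter_filter, and_assoc]
  have hsum : ((univ.filter (fun d => M.vt d = v)).filter (fun d => o d = 1)).card =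
      ∑ y : ZMod 3, (((univ.filter (fun d => M.vt d = v)).filter (fun d => o d = 1)).filter
        (fun d => l d = y)).card :=
    Finset.card_eq_sum_card_fiberwise (fun d _ => by simp)
  have hu : (univ : Finset (ZMod 3)) = {0, 1, 2} := by decide
  rw [hu, Finset.sum_insert (by decide), Finset.sum_insert (by decide), Finset.sum_singleton,
    ← hp, ← hp, ← hp, h.filt_card] at hsum
  have h0 := hc 0
  have h1 := hc 1
  have h2 := hc 2
  rw [h.sp_card, h.sp_card] at h0 h1 h2
  have a1 : (0 : ZMod 3) + 1 = 1 := by decide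
  have a2 : (0 : ZMod 3) + 2 = 2 := by decide
  have a3 : (1 : ZMod 3) + 1 = 2 := by decide
  have a4 : (1 : ZMod 3) + 2 = 0 := by decide
  have a5 : (2 : ZMod 3) + 1 = 0 := by decide
  have a6 : (2 : ZMod 3) + 2 = 1 := by decide
  rw [a1, a2] at h0
  rw [a3, a4] at h1
  rw [a5, a6] at h2
  have n1 : ¬ (1 : ZMod 3) = 0 := by decide
  have n2 : ¬ (2 : ZMod 3) = 0 := by decide
  have n3 : ¬ (0 : ZMod 3) = 1 := by decide
  have n4 : ¬ (2 : ZMod 3) = 1 := by decide
  have n5 : ¬ (0 : ZMod 3) = 2 := by decide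
  have n6 : ¬ (1 : ZMod 3) = 2 := by decide
  have hx : x = 0 ∨ x = 1 ∨ x = 2 := by
    clear hc hp h0 h1 h2 hsum; revert x; decide
  have v12 := h.v12
  have v13 := h.v13
  have v23 := h.v23
  by_cases q1 : v = M.vt s₁
  · have q2 : ¬ v = M.vt s₂ := fun q => v12 (q1 ▸ q)
    have q3 : ¬ v = M.vt s₃ := fun q => v13 (q1 ▸ q)
    rcases hx with rfl | rfl | rfl <;>
      simp only [q1, q2, q3, n1, n2, n3, n4, n5, n6, v12, v13, true_and, and_true, true_or,
        or_true, or_false, false_or, and_false, false_and, if_true, if_false] at h0 h1 h2 hsum ⊢ <;>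
      omega
  · by_cases q2 : v = M.vt s₂
    · have q3 : ¬ v = M.vt s₃ := fun q => v23 (q2 ▸ q)
      rcases hx with rfl | rfl | rfl <;>
        simp only [q1, q2, q3, n1, n2, n3, n4, n5, n6, v12.symm, v23, true_and, and_true, true_or,
          or_true, or_false, false_or, and_false, false_and, if_true, if_false] at h0 h1 h2 hsum ⊢ <;>
        omega
    · by_cases q3 : v = M.vt s₃
      · rcases hx with rfl | rfl | rfl <;>
          simp only [q1, q2, q3, n1, n2, n3, n4, n5, n6, v13.symm, v23.symm, true_and, and_true,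
            true_or, or_true, or_false, false_or, and_false, false_and, if_true,
            if_false] at h0 h1 h2 hsum ⊢ <;>
          omega
      · rcases hx with rfl | rfl | rfl <;>
          simp only [q1, q2, q3, n1, n2, n3, n4, n5, n6, true_and, and_true, true_or,
            or_true, or_false, false_or, and_false, false_and, if_true, if_false] at h0 h1 h2 hsum ⊢ <;>
          omega

lemma os_zero {d : D} (hd : M.fc d = M.fc s₁) : os d = 0 := by
  have := h.os_sum (M.fc s₁)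
  rw [if_pos rfl, Finset.sum_eq_zero_iff] at this
  exact this d (by simp [hd])

/-- Around every face other than the outer one each label is left exactly once. -/
lemma evf {f : F} (hf : f ≠ M.fc s₁) (x : ZMod 3) :
    ((univ.filter (fun d => M.fc d = f)).filter (fun d => os d = 1 ∧ l d = x)).card = 1 := by
  have hc := fun x => crossing (univ.filter (fun d => M.fc d = f)) (M.σ * M.α)
    (fun d => by simp [M.fc_φ]) (fun d => - l d) os (fun _ => 0) h.os_le (fun _ => by simp)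
    (fun d hd => by
      have h1 := h.l_φ d
      have h2 : ¬ (M.σ (M.α d) = s₁ ∨ M.σ (M.α d) = s₂ ∨ M.σ (M.α d) = s₃) := by
        have h3 : M.fc (M.σ (M.α d)) = f := by rw [M.fc_φ]; simpa using hd
        rintro (h4 | h4 | h4)
        · exact hf (by rw [← h3, h4])
        · exact hf (by rw [← h3, h4, h.s12])
        · exact hf (by rw [← h3, h4, h.s13])
      rw [if_neg h2] at h1
      simp only [Perm.coe_mul, Function.comp_apply, Nat.cast_zero]
      linear_combination -h1) x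
  have hp : ∀ y, ((univ.filter (fun d => M.fc d = f)).filter
      (fun d => os d = 1 ∧ l d = y)).card =
      (((univ.filter (fun d => M.fc d = f)).filter (fun d => os d = 1)).filter
        (fun d => l d = y)).card := by
    intro y; simp only [Finset.filter_filter, and_assoc]
  have hn : ∀ y, ((univ.filter (fun d => M.fc d = f)).filter
      (fun d => os d = 1 ∧ - l d = y)).card = ((univ.filter (fun d => M.fc d = f)).filter
      (fun d => os d = 1 ∧ l d = - y)).card := by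
    intro y
    congr 1
    refine Finset.filter_congr (fun d _ => ?_)
    rw [neg_eq_iff_eq_neg]
  have hsum : ((univ.filter (fun d => M.fc d = f)).filter (fun d => os d = 1)).card =
      ∑ y : ZMod 3, (((univ.filter (fun d => M.fc d = f)).filter (fun d => os d = 1)).filter
        (fun d => l d = y)).card :=
    Finset.card_eq_sum_card_fiberwise (fun d _ => by simp)
  have htot : ((univ.filter (fun d => M.fc d = f)).filter (fun d => os d = 1)).card = 3 := by
    have h3 := h.os_sum f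
    rw [if_neg hf] at h3
    rw [← h3, Finset.card_filter]
    refine Finset.sum_congr rfl (fun d _ => ?_)
    have := h.os_le d
    interval_cases os d <;> simp
  have hu : (univ : Finset (ZMod 3)) = {0, 1, 2} := by decide
  rw [hu, Finset.sum_insert (by decide), Finset.sum_insert (by decide), Finset.sum_singleton,
    ← hp, ← hp, ← hp, htot] at hsum
  have h0 := hc 0
  have h1 := hc 1
  have h2 := hc 2
  simp only [zero_ne_one, false_and, Finset.filter_false, Finset.card_empty, add_zero] at h0 h1 h2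
  rw [hn, hn] at h0 h1 h2
  have a0 : -(0 : ZMod 3) = 0 := by decide
  have a1 : -((0 : ZMod 3) + 1) = 2 := by decide
  have a2 : -(1 : ZMod 3) = 2 := by decide
  have a3 : -((1 : ZMod 3) + 1) = 1 := by decide
  have a4 : -(2 : ZMod 3) = 1 := by decide
  have a5 : -((2 : ZMod 3) + 1) = 0 := by decide
  rw [a0, a1] at h0
  rw [a2, a3] at h1
  rw [a4, a5] at h2
  have hx : x = 0 ∨ x = 1 ∨ x = 2 := by
    clear hc hp hn h0 h1 h2 hsum; revert x; decide
  rcases hx with rfl | rfl | rfl <;> omega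

lemma dart_cases (d : D) :
    (o d = 0 ∧ o (M.α d) = 1 ∧ os d = 1 ∧ os (M.α d) = 1 ∧ l (M.α d) = l d + 1) ∨
    (o d = 1 ∧ o (M.α d) = 0 ∧ os d = 1 ∧ os (M.α d) = 1 ∧ l (M.α d) = l d + 2) ∨
    (o d = 1 ∧ o (M.α d) = 1 ∧ os d = 0 ∧ os (M.α d) = 1 ∧ l (M.α d) = l d + 2) ∨
    (o d = 1 ∧ o (M.α d) = 1 ∧ os d = 1 ∧ os (M.α d) = 0 ∧ l (M.α d) = l d + 1) := by
  have h1 := h.o_le d
  have h2 := h.o_le (M.α d)
  have h3 := h.os_le d
  have h4 := h.os_le (M.α d)
  have h5 := h.four d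
  have h6 := h.l_α d
  interval_cases o d <;> interval_cases o (M.α d) <;> interval_cases os d <;>
    interval_cases os (M.α d) <;> simp_all
  all_goals ring

end Sch

/-- Tree edges (edges carrying the first colour). -/
def TT (M : PM D V E F) (o : D → ℕ) (l : D → ZMod 3) (d : D) : Prop :=
  (o d = 1 ∧ l d = 2) ∨ (o (M.α d) = 1 ∧ l (M.α d) = 2)

/-- Cotree edges (edges whose duals carry the first colour). -/
def CC (M : PM D V E F) (os : D → ℕ) (l : D → ZMod 3) (d : D) : Prop :=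
  (os d = 1 ∧ l d = 0) ∨ (os (M.α d) = 1 ∧ l (M.α d) = 0)

instance : DecidablePred (TT M o l) := by intro d; unfold TT; infer_instance

lemma TT_α (d : D) : TT M o l (M.α d) ↔ TT M o l d := by
  unfold TT; rw [M.α_inv]; tauto

namespace Sch

variable (h : Sch M s₁ s₂ s₃ o os l)
include h

lemma table (d : D) :
    (o d = 0 ∧ os d = 1 ∧ (TT M o l d ↔ l d = 1) ∧ (CC M os l d ↔ l d ≠ 1)) ∨
    (o d = 1 ∧ os d = 1 ∧ (TT M o l d ↔ l d = 2) ∧ (CC M os l d ↔ l d ≠ 2)) ∨
    (o d = 1 ∧ os d = 0 ∧ (TT M o l d ↔ l d ≠ 1) ∧ (CC M os l d ↔ l d = 1)) ∨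
    (o d = 1 ∧ os d = 1 ∧ (TT M o l d ↔ l d ≠ 0) ∧ (CC M os l d ↔ l d = 0)) := by
  unfold TT CC
  rcases h.dart_cases d with ⟨h1, h2, h3, h4, h5⟩ | ⟨h1, h2, h3, h4, h5⟩ |
    ⟨h1, h2, h3, h4, h5⟩ | ⟨h1, h2, h3, h4, h5⟩
  · left
    rw [h1, h2, h3, h4, h5]
    generalize l d = x
    revert x; decide
  · right; left
    rw [h1, h2, h3, h4, h5]
    generalize l d = x
    revert x; decide
  · right; right; left
    rw [h1, h2, h3, h4, h5]
    generalize l d = x
    revert x; decide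
  · right; right; right
    rw [h1, h2, h3, h4, h5]
    generalize l d = x
    revert x; decide

lemma TC (d : D) : TT M o l d ↔ ¬ CC M os l d := by
  rcases h.table d with ⟨_, _, h3, h4⟩ | ⟨_, _, h3, h4⟩ | ⟨_, _, h3, h4⟩ | ⟨_, _, h3, h4⟩ <;>
    rw [h3, h4] <;> simp

/-- Label of the next corner around a vertex. -/
lemma l_next (c : D) : l c = l (M.σ.symm c) + (o (M.σ.symm c) : ZMod 3) +
    (if c = s₁ ∨ c = s₂ ∨ c = s₃ then 1 else 0) := by
  have := h.l_σ (M.σ.symm c)
  simpa using this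

lemma ev_uniq {v : V} {x : ZMod 3} {c d : D} (hc : M.vt c = v) (hd : M.vt d = v)
    (h1 : o c = 1 ∧ l c = x) (h2 : o d = 1 ∧ l d = x) : c = d := by
  have := h.ev v x
  have hle : ((univ.filter (fun d => M.vt d = v)).filter (fun d => o d = 1 ∧ l d = x)).card ≤ 1 := by
    omega
  exact Finset.card_le_one.1 hle c (by simp [hc, h1]) d (by simp [hd, h2])

lemma ev_excl {v : V} {x : ZMod 3} {c : D} (hc : M.vt c = v) (h1 : o c = 1 ∧ l c = x)
    (h2 : (x = 2 ∧ v = M.vt s₁) ∨ (x = 0 ∧ v = M.vt s₂) ∨ (x = 1 ∧ v = M.vt s₃)) : False := by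
  have := h.ev v x
  rw [if_pos h2] at this
  have hz : ((univ.filter (fun d => M.vt d = v)).filter (fun d => o d = 1 ∧ l d = x)).card = 0 := by
    omega
  rw [Finset.card_eq_zero] at hz
  have hm : c ∈ (univ.filter (fun d => M.vt d = v)).filter (fun d => o d = 1 ∧ l d = x) := by
    simp [hc, h1]
  rw [hz] at hm
  simp at hm

lemma ev_exists {v : V} {x : ZMod 3}
    (h2 : ¬ ((x = 2 ∧ v = M.vt s₁) ∨ (x = 0 ∧ v = M.vt s₂) ∨ (x = 1 ∧ v = M.vt s₃))) :
    ∃ c, M.vt c = v ∧ o c = 1 ∧ l c = x := by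
  have := h.ev v x
  rw [if_neg h2] at this
  have hz : 0 < ((univ.filter (fun d => M.vt d = v)).filter (fun d => o d = 1 ∧ l d = x)).card := by
    omega
  obtain ⟨c, hc⟩ := Finset.card_pos.1 hz
  simp only [mem_filter, mem_univ, true_and] at hc
  exact ⟨c, hc⟩

lemma evf_uniq {f : F} (hf : f ≠ M.fc s₁) {x : ZMod 3} {c d : D} (hc : M.fc c = f)
    (hd : M.fc d = f) (h1 : os c = 1 ∧ l c = x) (h2 : os d = 1 ∧ l d = x) : c = d := by
  have := h.evf hf x
  exact Finset.card_le_one.1 this.le c (by simp [hc, h1]) d (by simp [hd, h2])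

lemma evf_exists {f : F} (hf : f ≠ M.fc s₁) (x : ZMod 3) :
    ∃ c, M.fc c = f ∧ os c = 1 ∧ l c = x := by
  have := h.evf hf x
  obtain ⟨c, hc⟩ := Finset.card_pos.1 (by rw [this]; exact one_pos)
  simp only [mem_filter, mem_univ, true_and] at hc
  exact ⟨c, hc⟩

lemma T_σα (c : D) : TT M o l (M.α (M.σ.symm c)) ↔ TT M o l (M.σ.symm c) := TT_α _

/-- Starting corner with label `0`: it follows the crossing of the first colour. -/
lemma vs_zero {c : D} (h1 : TT M o l (M.σ.symm c)) (h3 : l c = 0) :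
    c = s₁ ∨ (o (M.σ.symm c) = 1 ∧ l (M.σ.symm c) = 2) := by
  have hn := h.l_next c
  by_cases hs : c = s₁ ∨ c = s₂ ∨ c = s₃
  · rcases hs with rfl | rfl | rfl
    · exact Or.inl rfl
    · rw [h.l_s₂] at h3; exact absurd h3 (by decide)
    · rw [h.l_s₃] at h3; exact absurd h3 (by decide)
  · right
    rw [if_neg hs, h3] at hn
    rcases h.table (M.σ.symm c) with ⟨h4, h5, h6, h7⟩ | ⟨h4, h5, h6, h7⟩ | ⟨h4, h5, h6, h7⟩ |
      ⟨h4, h5, h6, h7⟩ <;> rw [h6] at h1 <;> rw [h4] at hn ⊢ <;>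
      generalize l (M.σ.symm c) = x at * <;> clear h6 h7 <;> revert x <;> decide

/-- Starting corner with label different from `0`. -/
lemma vs_nonzero {c : D} (h1 : TT M o l (M.σ.symm c)) (h2 : ¬ TT M o l c) (h3 : l c ≠ 0) :
    (o c = 1 ∧ l c = 1) ∨ (o (M.σ.symm c) = 1 ∧ l (M.σ.symm c) = 1) ∨ c = s₃ := by
  have hn := h.l_next c
  have hc : (o c = 1 ∧ l c = 1) ∨ l c = 2 := by
    rcases h.table c with ⟨h4, h5, h6, h7⟩ | ⟨h4, h5, h6, h7⟩ | ⟨h4, h5, h6, h7⟩ |
      ⟨h4, h5, h6, h7⟩ <;> rw [h6] at h2 <;> rw [h4] <;>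
      generalize l c = x at * <;> clear h6 h7 hn <;> revert x <;> decide
  rcases hc with hc | hc
  · exact Or.inl hc
  · right
    by_cases hs : c = s₁ ∨ c = s₂ ∨ c = s₃
    · rcases hs with rfl | rfl | rfl
      · rw [h.l_s₁] at hc; exact absurd hc (by decide)
      · rw [h.l_s₂] at hc; exact absurd hc (by decide)
      · exact Or.inr rfl
    · left
      rw [if_neg hs, hc] at hn
      rcases h.table (M.σ.symm c) with ⟨h4, h5, h6, h7⟩ | ⟨h4, h5, h6, h7⟩ | ⟨h4, h5, h6, h7⟩ |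
        ⟨h4, h5, h6, h7⟩ <;> rw [h6] at h1 <;> rw [h4] at hn ⊢ <;>
        generalize l (M.σ.symm c) = x at * <;> clear h6 h7 <;> revert x <;> decide

end Sch

/-- Corners at `v` where an interval of non-tree edges starts. -/
def VS (M : PM D V E F) (o : D → ℕ) (l : D → ZMod 3) (v : V) : Finset D :=
  univ.filter (fun c => M.vt c = v ∧ TT M o l (M.σ.symm c) ∧ ¬ TT M o l c)

/-- Corners of `f` where an interval of tree edges starts. -/
def FS (M : PM D V E F) (o : D → ℕ) (l : D → ZMod 3) (f : F) : Finset D :=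
  univ.filter (fun c => M.fc c = f ∧ ¬ TT M o l (M.σ.symm c) ∧ TT M o l c)

namespace Sch

variable (h : Sch M s₁ s₂ s₃ o os l)
include h

lemma VS_zero (v : V) : ((VS M o l v).filter (fun c => l c = 0)).card ≤ 1 := by
  rw [Finset.card_le_one]
  intro c hc d hd
  simp only [VS, mem_filter, mem_univ, true_and] at hc hd
  obtain ⟨⟨c1, c2, c3⟩, c4⟩ := hc
  obtain ⟨⟨d1, d2, d3⟩, d4⟩ := hd
  have vc : M.vt (M.σ.symm c) = v := by rw [← M.vt_σ]; simpa using c1
  have vd : M.vt (M.σ.symm d) = v := by rw [← M.vt_σ]; simpa using d1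
  rcases h.vs_zero c2 c4 with hc | hc <;> rcases h.vs_zero d2 d4 with hd | hd
  · rw [hc, hd]
  · exact (h.ev_excl vd hd (Or.inl ⟨rfl, by rw [← c1, hc]⟩)).elim
  · exact (h.ev_excl vc hc (Or.inl ⟨rfl, by rw [← d1, hd]⟩)).elim
  · exact M.σ.symm.injective (h.ev_uniq vc vd hc hd)

lemma VS_nonzero (v : V) : ((VS M o l v).filter (fun c => l c ≠ 0)).card ≤ 1 := by
  rw [Finset.card_le_one]
  intro c hc d hd
  simp only [VS, mem_filter, mem_univ, true_and] at hc hd
  obtain ⟨⟨c1, c2, c3⟩, c4⟩ := hc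
  obtain ⟨⟨d1, d2, d3⟩, d4⟩ := hd
  have vc : M.vt (M.σ.symm c) = v := by rw [← M.vt_σ]; simpa using c1
  have vd : M.vt (M.σ.symm d) = v := by rw [← M.vt_σ]; simpa using d1
  rcases h.vs_nonzero c2 c3 c4 with hc | hc | hc <;>
    rcases h.vs_nonzero d2 d3 d4 with hd | hd | hd
  · exact h.ev_uniq c1 d1 hc hd
  · exact absurd d2 (by rw [← h.ev_uniq c1 vd hc hd]; exact c3)
  · exact (h.ev_excl c1 hc (Or.inr (Or.inr ⟨rfl, by rw [← d1, hd]⟩))).elim
  · exact absurd c2 (by rw [← h.ev_uniq d1 vc hd hc]; exact d3)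
  · exact M.σ.symm.injective (h.ev_uniq vc vd hc hd)
  · exact (h.ev_excl vc hc (Or.inr (Or.inr ⟨rfl, by rw [← d1, hd]⟩))).elim
  · exact (h.ev_excl d1 hd (Or.inr (Or.inr ⟨rfl, by rw [← c1, hc]⟩))).elim
  · exact (h.ev_excl vd hd (Or.inr (Or.inr ⟨rfl, by rw [← c1, hc]⟩))).elim
  · rw [hc, hd]

lemma VS_le (v : V) : (VS M o l v).card ≤ 2 := by
  rw [← Finset.card_filter_add_card_filter_not (s := VS M o l v) (fun c => l c = 0)]
  have h1 := h.VS_zero v
  have h2 := h.VS_nonzero v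
  simp only [ne_eq] at h2
  omega

/-- In a face `f ≠ fc s₁` there is no special corner; label of the next corner. -/
lemma f_next {c : D} (hf : M.fc c ≠ M.fc s₁) :
    l c + (os (M.α (M.σ.symm c)) : ZMod 3) = l (M.α (M.σ.symm c)) := by
  have h1 := h.l_φ (M.α (M.σ.symm c))
  rw [M.α_inv] at h1
  simp only [apply_symm_apply] at h1
  rw [if_neg, add_zero] at h1
  · exact h1
  · rintro (rfl | rfl | rfl)
    · exact hf rfl
    · exact hf h.s12.symm
    · exact hf h.s13.symm

lemma fs_two {c : D} (hf : M.fc c ≠ M.fc s₁) (h1 : ¬ TT M o l (M.σ.symm c)) (h3 : l c = 2) :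
    os (M.α (M.σ.symm c)) = 1 ∧ l (M.α (M.σ.symm c)) = 0 := by
  have hn := h.f_next hf
  rw [← TT_α] at h1
  rcases h.table (M.α (M.σ.symm c)) with ⟨h4, h5, h6, h7⟩ | ⟨h4, h5, h6, h7⟩ | ⟨h4, h5, h6, h7⟩ |
    ⟨h4, h5, h6, h7⟩ <;> rw [h6] at h1 <;> rw [h5, h3] at hn <;> rw [h5] <;>
    generalize l (M.α (M.σ.symm c)) = x at * <;> clear h6 h7 <;> revert x <;> decide

lemma fs_other {c : D} (hf : M.fc c ≠ M.fc s₁) (h1 : ¬ TT M o l (M.σ.symm c)) (h2 : TT M o l c)
    (h3 : l c ≠ 2) : (os c = 1 ∧ l c = 1) ∨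
      (os (M.α (M.σ.symm c)) = 1 ∧ l (M.α (M.σ.symm c)) = 1) := by
  have hn := h.f_next hf
  rw [← TT_α] at h1
  have hc : (os c = 1 ∧ l c = 1) ∨ l c = 0 := by
    rcases h.table c with ⟨h4, h5, h6, h7⟩ | ⟨h4, h5, h6, h7⟩ | ⟨h4, h5, h6, h7⟩ |
      ⟨h4, h5, h6, h7⟩ <;> rw [h6] at h2 <;> rw [h5] <;>
      generalize l c = x at * <;> clear h6 h7 hn <;> revert x <;> decide
  rcases hc with hc | hc
  · exact Or.inl hc
  · right
    rcases h.table (M.α (M.σ.symm c)) with ⟨h4, h5, h6, h7⟩ | ⟨h4, h5, h6, h7⟩ |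
      ⟨h4, h5, h6, h7⟩ | ⟨h4, h5, h6, h7⟩ <;> rw [h6] at h1 <;> rw [h5, hc] at hn <;> rw [h5] <;>
      generalize l (M.α (M.σ.symm c)) = x at * <;> clear h6 h7 <;> revert x <;> decide

lemma fc_prev (c : D) : M.fc (M.α (M.σ.symm c)) = M.fc c := by
  have := M.fc_φ (M.α (M.σ.symm c))
  rw [M.α_inv] at this
  simpa using this.symm

lemma FS_two {f : F} (hf : f ≠ M.fc s₁) : ((FS M o l f).filter (fun c => l c = 2)).card ≤ 1 := by
  rw [Finset.card_le_one]
  intro c hc d hd
  simp only [FS, mem_filter, mem_univ, true_and] at hc hd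
  obtain ⟨⟨c1, c2, c3⟩, c4⟩ := hc
  obtain ⟨⟨d1, d2, d3⟩, d4⟩ := hd
  have hc := h.fs_two (by rwa [c1]) c2 c4
  have hd := h.fs_two (by rwa [d1]) d2 d4
  exact M.σ.symm.injective (M.α.injective
    (h.evf_uniq hf ((h.fc_prev c).trans c1) ((h.fc_prev d).trans d1) hc hd))

lemma FS_other {f : F} (hf : f ≠ M.fc s₁) :
    ((FS M o l f).filter (fun c => ¬ l c = 2)).card ≤ 1 := by
  rw [Finset.card_le_one]
  intro c hc d hd
  simp only [FS, mem_filter, mem_univ, true_and] at hc hd
  obtain ⟨⟨c1, c2, c3⟩, c4⟩ := hc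
  obtain ⟨⟨d1, d2, d3⟩, d4⟩ := hd
  have vc := (h.fc_prev c).trans c1
  have vd := (h.fc_prev d).trans d1
  rcases h.fs_other (by rwa [c1]) c2 c3 c4 with hc | hc <;>
    rcases h.fs_other (by rwa [d1]) d2 d3 d4 with hd | hd
  · exact h.evf_uniq hf c1 d1 hc hd
  · refine absurd c3 ?_
    rw [h.evf_uniq hf c1 vd hc hd, TT_α]; exact d2
  · refine absurd d3 ?_
    rw [h.evf_uniq hf d1 vc hd hc, TT_α]; exact c2
  · exact M.σ.symm.injective (M.α.injective (h.evf_uniq hf vc vd hc hd))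

lemma FS_outer : FS M o l (M.fc s₁) ⊆ {s₃} := by
  intro c hc
  simp only [FS, mem_filter, mem_univ, true_and] at hc
  obtain ⟨c1, c2, c3⟩ := hc
  have hd : M.fc (M.α (M.σ.symm c)) = M.fc s₁ := (h.fc_prev c).trans c1
  have hc0 := h.os_zero c1
  have hd0 := h.os_zero hd
  have h1 := h.l_φ (M.α (M.σ.symm c))
  rw [M.α_inv] at h1
  simp only [apply_symm_apply] at h1
  rw [hd0] at h1
  rw [← TT_α] at c2
  have hd1 : l (M.α (M.σ.symm c)) = 1 := by
    rcases h.table (M.α (M.σ.symm c)) with ⟨h4, h5, h6, h7⟩ | ⟨h4, h5, h6, h7⟩ |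
      ⟨h4, h5, h6, h7⟩ | ⟨h4, h5, h6, h7⟩
    · omega
    · omega
    · rw [h6] at c2; simpa using c2
    · omega
  have hc1 : l c ≠ 1 := by
    rcases h.table c with ⟨h4, h5, h6, h7⟩ | ⟨h4, h5, h6, h7⟩ |
      ⟨h4, h5, h6, h7⟩ | ⟨h4, h5, h6, h7⟩
    · omega
    · omega
    · exact h6.1 c3
    · omega
  rw [hd1] at h1
  by_cases hs : c = s₁ ∨ c = s₂ ∨ c = s₃
  · rcases hs with rfl | rfl | rfl
    · rw [if_pos (Or.inl rfl), h.l_s₁] at h1; exact absurd h1 (by decide)
    · exact absurd h.l_s₂ hc1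
    · simp
  · rw [if_neg hs] at h1
    simp at h1
    exact absurd h1 hc1

lemma FS_le (f : F) : (FS M o l f).card ≤ 2 := by
  by_cases hf : f = M.fc s₁
  · have := Finset.card_le_card h.FS_outer
    rw [hf]
    simp at this
    omega
  · rw [← Finset.card_filter_add_card_filter_not (s := FS M o l f) (fun c => l c = 2)]
    have h1 := h.FS_two hf
    have h2 := h.FS_other hf
    omega

end Sch

end

end Helper28.VF
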