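import Mathlib

/-!
Combinatorial plane maps, their `3`-connectedness, Schnyder data and the statements of the
lemmas used for MP_8b6ec2_co.  `φ = σ ∘ α` is the face permutation; the dart `d` stands for the
corner at the vertex `vt d` in the face `fc d`, between the edges of `σ⁻¹ d` and `d`.
-/

namespace Helper28.VF

open Finset Equiv

/-- A connected plane (genus `0`) map with dart set `D`, vertices `V`, edges `E`, faces `F`. -/
structure PM (D V E F : Type) [Fintype D] [Fintype V] [Fintype E] [Fintype F] where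
  σ : Perm D
  α : Perm D
  vt : D → V
  ed : D → E
  fc : D → F
  α_inv : ∀ d, α (α d) = d
  α_ne : ∀ d, α d ≠ d
  vt_iff : ∀ d e, vt d = vt e ↔ σ.SameCycle d e
  ed_iff : ∀ d e, ed d = ed e ↔ e = d ∨ e = α d
  fc_iff : ∀ d e, fc d = fc e ↔ (σ * α).SameCycle d e
  vt_surj : Function.Surjective vt
  ed_surj : Function.Surjective ed
  fc_surj : Function.Surjective fc
  conn : ∀ P : D → Prop, (∃ d, P d) → (∀ d, P d → P (σ d)) → (∀ d, P d → P (α d)) → ∀ d, P d
  euler : Fintype.card V + Fintype.card F = Fintype.card E + 2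

section
variable {D V E F : Type} [Fintype D] [Fintype V] [Fintype E] [Fintype F]
  [DecidableEq D] [DecidableEq V] [DecidableEq E] [DecidableEq F]

/-- The underlying graph is simple and `3`-connected. -/
structure PM.C3 (M : PM D V E F) : Prop where
  noloop : ∀ d, M.vt (M.α d) ≠ M.vt d
  simple : ∀ d e, M.vt d = M.vt e → M.vt (M.α d) = M.vt (M.α e) → d = e
  card4 : 4 ≤ Fintype.card V
  cut3 : ∀ X B : Finset V, X.Nonempty → B.Nonempty → Disjoint X B →
    (∀ d, M.vt d ∈ X → M.vt (M.α d) ∉ B) → 3 ≤ (univ \ (X ∪ B)).card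

/-- All four elements (two end vertices, two faces) around the edge of `d` lie in `YV ∪ YF`. -/
def PM.Full (M : PM D V E F) (YV : Finset V) (YF : Finset F) (d : D) : Prop :=
  M.vt d ∈ YV ∧ M.vt (M.α d) ∈ YV ∧ M.fc d ∈ YF ∧ M.fc (M.α d) ∈ YF

instance (M : PM D V E F) (YV : Finset V) (YF : Finset F) : DecidablePred (M.Full YV YF) := by
  intro d; unfold PM.Full; infer_instance

/-- The edges all of whose four elements lie in `YV ∪ YF`. -/
def PM.SE (M : PM D V E F) (YV : Finset V) (YF : Finset F) : Finset E :=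
  (univ.filter (fun d => M.Full YV YF d)).image M.ed

/-- The corners on the boundary or in the interior of the region formed by the edges `SE`. -/
def PM.DS (M : PM D V E F) (YV : Finset V) (YF : Finset F) : Finset D :=
  univ.filter (fun c => M.Full YV YF c ∨ M.Full YV YF (M.σ.symm c))

/-- `YV ∪ YF` is connected through the edges of `SE`. -/
def PM.Cn (M : PM D V E F) (YV : Finset V) (YF : Finset F) : Prop :=
  ∀ (p : V → Prop) (q : F → Prop),
    (∀ d, M.Full YV YF d → ((p (M.vt d) ↔ q (M.fc d)) ∧ (p (M.vt d) ↔ q (M.fc (M.α d))))) →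
    ((∀ v ∈ YV, p v) ∧ (∀ f ∈ YF, q f)) ∨ ((∀ v ∈ YV, ¬ p v) ∧ (∀ f ∈ YF, ¬ q f))

end

/-- Schnyder data on a plane map with three special darts `s₁, s₂, s₃` in one face: `o d = 1` if
the half-edge `d` is outgoing at its vertex, `os d = 1` if the dual half-edge is outgoing at the
face of `d`, and `l` is the Schnyder labelling of the corners. -/
structure Sch {D V E F : Type} [Fintype D] [Fintype V] [Fintype E] [Fintype F]
    [DecidableEq D] [DecidableEq V] [DecidableEq E] [DecidableEq F]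
    (M : PM D V E F) (s₁ s₂ s₃ : D) (o os : D → ℕ) (l : D → ZMod 3) : Prop where
  s12 : M.fc s₁ = M.fc s₂
  s13 : M.fc s₁ = M.fc s₃
  v12 : M.vt s₁ ≠ M.vt s₂
  v13 : M.vt s₁ ≠ M.vt s₃
  v23 : M.vt s₂ ≠ M.vt s₃
  o_le : ∀ d, o d ≤ 1
  os_le : ∀ d, os d ≤ 1
  four : ∀ d, o d + o (M.α d) + os d + os (M.α d) = 3
  o_sum : ∀ v, ∑ d ∈ univ.filter (fun d => M.vt d = v), o d =
    if v = M.vt s₁ ∨ v = M.vt s₂ ∨ v = M.vt s₃ then 2 else 3
  os_sum : ∀ f, ∑ d ∈ univ.filter (fun d => M.fc d = f), os d = if f = M.fc s₁ then 0 else 3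
  l_σ : ∀ d, l (M.σ d) = l d + (o d : ZMod 3) +
    (if M.σ d = s₁ ∨ M.σ d = s₂ ∨ M.σ d = s₃ then 1 else 0)
  l_α : ∀ d, l (M.α d) = l d + (o d : ZMod 3) + (os (M.α d) : ZMod 3)
  l_s₁ : l s₁ = 0
  l_s₂ : l s₂ = 1
  l_s₃ : l s₃ = 2

/-- Packet H1: on a plane map every closed cochain is exact. -/
def StmtH1 : Prop :=
  ∀ (D V E F : Type) [Fintype D] [Fintype V] [Fintype E] [Fintype F]
    [DecidableEq D] [DecidableEq V] [DecidableEq E] [DecidableEq F] (M : PM D V E F)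
    (K : Type) [Field K] (s t : D → K),
    (∀ v, ∑ d ∈ univ.filter (fun d => M.vt d = v), s d = 0) →
    (∀ d, t d + t (M.α d) = 0) →
    (∀ f, ∑ d ∈ univ.filter (fun d => M.fc d = f), (t d + s (M.α d)) = 0) →
    ∃ l : D → K, (∀ d, l (M.σ d) = l d + s d) ∧ (∀ d, l (M.α d) = l d + t d)

/-- Packet HOLE: Euler inequality for a connected region. -/
def StmtHole : Prop :=
  ∀ (D V E F : Type) [Fintype D] [Fintype V] [Fintype E] [Fintype F]
    [DecidableEq D] [DecidableEq V] [DecidableEq E] [DecidableEq F] (M : PM D V E F)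
    (YV : Finset V) (YF : Finset F) (H : Finset E),
    M.Cn YV YF → H.Nonempty → Disjoint (M.SE YV YF) H →
    (∀ c, c ∉ M.DS YV YF → (M.ed c ∈ H ↔ M.ed (M.σ.symm c) ∈ H)) →
    (M.SE YV YF).card + YV.card + YF.card ≤ (M.DS YV YF).card + 1 ∧
    ((∃ e, e ∉ M.SE YV YF ∧ e ∉ H) →
      (M.SE YV YF).card + YV.card + YF.card ≤ (M.DS YV YF).card)

/-- Packet HALLINEQ: Hall's inequality. -/
def StmtHallIneq : Prop :=
  ∀ (D V E F : Type) [Fintype D] [Fintype V] [Fintype E] [Fintype F]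
    [DecidableEq D] [DecidableEq V] [DecidableEq E] [DecidableEq F] (M : PM D V E F)
    (_ : M.C3) (f₀ : F) (a₁ a₂ a₃ : V), a₁ ≠ a₂ → a₁ ≠ a₃ → a₂ ≠ a₃ →
    ∀ (YV : Finset V) (YF : Finset F),
    3 * (YV.card + YF.card) + (M.SE YV YF).card ≤
      (univ.filter (fun d => M.vt d ∈ YV)).card + (univ.filter (fun d => M.fc d ∈ YF)).card +
      (if f₀ ∈ YF then 3 else 0) + (YV ∩ {a₁, a₂, a₃}).card

/-- Packet ASSIGN: the `3`-orientation of the completion. -/
def StmtAssign : Prop :=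
  ∀ (D V E F : Type) [Fintype D] [Fintype V] [Fintype E] [Fintype F]
    [DecidableEq D] [DecidableEq V] [DecidableEq E] [DecidableEq F] (M : PM D V E F)
    (_ : M.C3) (f₀ : F) (a₁ a₂ a₃ : V), a₁ ≠ a₂ → a₁ ≠ a₃ → a₂ ≠ a₃ →
    ∃ o os : D → ℕ, (∀ d, o d ≤ 1) ∧ (∀ d, os d ≤ 1) ∧
      (∀ d, o d + o (M.α d) + os d + os (M.α d) = 3) ∧
      (∀ v, ∑ d ∈ univ.filter (fun d => M.vt d = v), o d =
        if v = a₁ ∨ v = a₂ ∨ v = a₃ then 2 else 3) ∧
      (∀ f, ∑ d ∈ univ.filter (fun d => M.fc d = f), os d = if f = f₀ then 0 else 3)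

/-- Packet DEG: degrees and face lengths are at least `3`. -/
def StmtDeg : Prop :=
  ∀ (D V E F : Type) [Fintype D] [Fintype V] [Fintype E] [Fintype F]
    [DecidableEq D] [DecidableEq V] [DecidableEq E] [DecidableEq F] (M : PM D V E F)
    (_ : M.C3),
    (∀ v, 3 ≤ (univ.filter (fun d => M.vt d = v)).card) ∧
    (∀ f, 3 ≤ (univ.filter (fun d => M.fc d = f)).card) ∧
    (∀ d, M.vt d ≠ M.vt (M.σ (M.α d)) ∧ M.vt d ≠ M.vt (M.σ (M.α (M.σ (M.α d)))) ∧
      M.vt (M.σ (M.α d)) ≠ M.vt (M.σ (M.α (M.σ (M.α d)))))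

/-- Packet LABEL: existence of Schnyder data. -/
def StmtLabel : Prop :=
  ∀ (D V E F : Type) [Fintype D] [Fintype V] [Fintype E] [Fintype F]
    [DecidableEq D] [DecidableEq V] [DecidableEq E] [DecidableEq F] (M : PM D V E F)
    (_ : M.C3) (s₁ : D),
    ∃ (o os : D → ℕ) (l : D → ZMod 3),
      Sch M s₁ (M.σ (M.α s₁)) (M.σ (M.α (M.σ (M.α s₁)))) o os l

end Helper28.VF
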