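import Pool.Agent.Helper28.VF.Core
import Pool.Agent.Helper75.VF.H1
import Pool.Agent.Helper89.VF.Hole
import Pool.Agent.Helper67.VF.HallIneq
import Pool.Agent.Helper51.VF.Assign
import Pool.Agent.Helper52.VF.Deg

/-!
Existence of Schnyder data.
-/

namespace Helper28.VF

open Finset Equiv

set_option linter.unusedSectionVars false

theorem stmtLabel (h1 : StmtH1) (h2 : StmtAssign) (h3 : StmtDeg) : StmtLabel := by
  intro D V E F _ _ _ _ _ _ _ _ M hC s₁
  obtain ⟨v12, v13, v23⟩ := (h3 D V E F M hC).2.2 s₁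
  set s₂ := M.σ (M.α s₁) with hs₂
  set s₃ := M.σ (M.α s₂) with hs₃
  have f12 : M.fc s₂ = M.fc s₁ := M.fc_φ s₁
  have f13 : M.fc s₃ = M.fc s₁ := (M.fc_φ s₂).trans f12
  obtain ⟨o, os, ho, hos, h4, hv, hf⟩ := h2 D V E F M hC (M.fc s₁) (M.vt s₁) (M.vt s₂) (M.vt s₃)
    v12 v13 v23
  have n12 : s₁ ≠ s₂ := fun h => v12 (by rw [← h])
  have n13 : s₁ ≠ s₃ := fun h => v13 (by rw [← h])
  have n23 : s₂ ≠ s₃ := fun h => v23 (by rw [← h])
  have h30 : (3 : ZMod 3) = 0 := by decide
  let sp : D → ZMod 3 := fun d => if d = s₁ ∨ d = s₂ ∨ d = s₃ then 1 else 0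
  have hsp : ∀ d, sp d = (if d = s₁ then 1 else 0) + (if d = s₂ then 1 else 0) +
      (if d = s₃ then 1 else 0) := by
    intro d
    by_cases e1 : d = s₁
    · simp [sp, e1, n12, n13]
    · by_cases e2 : d = s₂
      · simp [sp, e2, n12.symm, n23]
      · by_cases e3 : d = s₃ <;> simp [sp, e1, e2, e3, n13.symm, n23.symm]
  have ho4 : ∀ d, (o d : ZMod 3) + o (M.α d) + os d + os (M.α d) = 0 := by
    intro d
    have := congrArg (Nat.cast : ℕ → ZMod 3) (h4 d)
    push_cast at this
    rw [this, h30]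
  have Hs : ∀ v, ∑ d ∈ univ.filter (fun d => M.vt d = v), ((o d : ZMod 3) + sp (M.σ d)) = 0 := by
    intro v
    rw [Finset.sum_add_distrib]
    have e1 : ∑ d ∈ univ.filter (fun d => M.vt d = v), (o d : ZMod 3) =
        (if v = M.vt s₁ ∨ v = M.vt s₂ ∨ v = M.vt s₃ then 2 else 3) := by
      rw [← Nat.cast_sum, hv v]
      split_ifs <;> rfl
    have e2 : ∑ d ∈ univ.filter (fun d => M.vt d = v), sp (M.σ d) =
        ∑ d ∈ univ.filter (fun d => M.vt d = v), sp d := by
      refine Finset.sum_bij (fun d _ => M.σ d) (fun d hd => ?_)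
        (fun a _ b _ hab => M.σ.injective hab) (fun b hb => ?_) (fun d _ => rfl)
      · simp only [mem_filter, mem_univ, true_and] at hd ⊢
        rw [M.vt_σ, hd]
      · refine ⟨M.σ.symm b, ?_, by simp⟩
        simp only [mem_filter, mem_univ, true_and] at hb ⊢
        rw [← M.vt_σ]; simpa using hb
    rw [e1, e2, Finset.sum_congr rfl (fun d _ => hsp d), Finset.sum_add_distrib,
      Finset.sum_add_distrib, Finset.sum_filter, Finset.sum_filter, Finset.sum_filter]
    have key : ∀ s : D, ∑ a, (if M.vt a = v then (if a = s then (1 : ZMod 3) else 0) else 0) =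
        if v = M.vt s then 1 else 0 := by
      intro s
      rw [Finset.sum_eq_single s]
      · simp [eq_comm]
      · intro b _ hb; simp [hb]
      · simp
    rw [key, key, key]
    by_cases q1 : v = M.vt s₁
    · simp [q1, v12, v13]; decide
    · by_cases q2 : v = M.vt s₂
      · simp [q2, v12.symm, v23]; decide
      · by_cases q3 : v = M.vt s₃
        · simp [q3, v13.symm, v23.symm]; decide
        · simp [q1, q2, q3]; decide
  have Ht : ∀ d, ((o d : ZMod 3) + (os (M.α d) : ZMod 3)) +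
      ((o (M.α d) : ZMod 3) + (os (M.α (M.α d)) : ZMod 3)) = 0 := by
    intro d
    have := ho4 d
    simp only [M.α_inv]
    linear_combination this
  have Hf : ∀ f, ∑ d ∈ univ.filter (fun d => M.fc d = f),
      (((o d : ZMod 3) + (os (M.α d) : ZMod 3)) + ((o (M.α d) : ZMod 3) + sp (M.σ (M.α d)))) =
      0 := by
    intro f
    have e0 : ∀ d, ((o d : ZMod 3) + (os (M.α d) : ZMod 3)) +
        ((o (M.α d) : ZMod 3) + sp (M.σ (M.α d))) = - (os d : ZMod 3) + sp (M.σ (M.α d)) := by
      intro d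
      linear_combination ho4 d
    rw [Finset.sum_congr rfl (fun d _ => e0 d), Finset.sum_add_distrib]
    have e1 : ∑ d ∈ univ.filter (fun d => M.fc d = f), (- (os d : ZMod 3)) =
        0 := by
      rw [Finset.sum_neg_distrib, ← Nat.cast_sum, hf f]
      split_ifs <;> simp [h30]
    have e2 : ∑ d ∈ univ.filter (fun d => M.fc d = f), sp (M.σ (M.α d)) =
        ∑ d ∈ univ.filter (fun d => M.fc d = f), sp d := by
      refine Finset.sum_bij (fun d _ => M.σ (M.α d)) (fun d hd => ?_)
        (fun a _ b _ hab => M.α.injective (M.σ.injective hab)) (fun b hb => ?_) (fun d _ => rfl)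
      · simp only [mem_filter, mem_univ, true_and] at hd ⊢
        rw [M.fc_φ, hd]
      · refine ⟨M.α.symm (M.σ.symm b), ?_, by simp⟩
        simp only [mem_filter, mem_univ, true_and] at hb ⊢
        rw [← M.fc_φ]; simpa using hb
    rw [e1, e2, Finset.sum_congr rfl (fun d _ => hsp d), Finset.sum_add_distrib,
      Finset.sum_add_distrib, Finset.sum_filter, Finset.sum_filter, Finset.sum_filter]
    have key : ∀ s : D, ∑ a, (if M.fc a = f then (if a = s then (1 : ZMod 3) else 0) else 0) =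
        if f = M.fc s then 1 else 0 := by
      intro s
      rw [Finset.sum_eq_single s]
      · simp [eq_comm]
      · intro b _ hb; simp [hb]
      · simp
    rw [key, key, key, f12, f13]
    split_ifs <;> decide
  haveI : Fact (Nat.Prime 3) := ⟨Nat.prime_three⟩
  obtain ⟨l, l1, l2⟩ := h1 D V E F M (ZMod 3) (fun d => (o d : ZMod 3) + sp (M.σ d))
    (fun d => (o d : ZMod 3) + (os (M.α d) : ZMod 3)) Hs Ht Hf
  have lφ : ∀ d, l (M.σ (M.α d)) = l d - os d + sp (M.σ (M.α d)) := by
    intro d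
    rw [l1, l2]
    linear_combination ho4 d
  have os0 : ∀ d, M.fc d = M.fc s₁ → os d = 0 := by
    intro d hd
    have := hf (M.fc s₁)
    rw [if_pos rfl, Finset.sum_eq_zero_iff] at this
    exact this d (by simp [hd])
  have e2 : l s₂ = l s₁ + 1 := by
    have := lφ s₁
    rw [← hs₂, os0 s₁ rfl] at this
    rw [this]; simp [sp]
  have e3 : l s₃ = l s₂ + 1 := by
    have := lφ s₂
    rw [← hs₃, os0 s₂ f12] at this
    rw [this]; simp [sp]
  refine ⟨o, os, fun d => l d - l s₁, ?_⟩
  refine ⟨f12.symm, f13.symm, v12, v13, v23, ho, hos, h4, hv, hf, ?_, ?_, ?_, ?_, ?_⟩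
  · intro d
    show l (M.σ d) - l s₁ = l d - l s₁ + (o d : ZMod 3) + sp (M.σ d)
    rw [l1]; ring
  · intro d
    show l (M.α d) - l s₁ = l d - l s₁ + (o d : ZMod 3) + (os (M.α d) : ZMod 3)
    rw [l2]; ring
  · show l s₁ - l s₁ = 0
    ring
  · show l s₂ - l s₁ = 1
    rw [e2]; ring
  · show l s₃ - l s₁ = 2
    rw [e3, e2]; ring

theorem label : StmtLabel :=
  stmtLabel Helper75.VF.stmtH1 (Helper51.VF.stmtAssign
    (Helper67.VF.stmtHallIneq Pool.Agent.Helper89.VF.stmtHole stmtDeg) stmtDeg) stmtDeg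

end Helper28.VF
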