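import Pool.Agent.Helper28.VF.Walk
import Pool.Agent.Helper28.VF.Label
import Pool.Agent.Helper19.VF.ToPM

/-!
Assembly: the spanning tree and the closed walk of a `3`-connected plane graph.
-/

namespace Helper28.VF

open Finset Equiv

set_option linter.unusedSectionVars false

variable {V : Type}

theorem main_R [Finite V] (G : SimpleGraph V) (R : Rotation G) (h3 : ThreeConnected G)
    (hp : R.Planar) :
    ∃ (w : List (V ⊕ R.Face)) (T : SimpleGraph V), R.CoveringWalk 2 w ∧ R.Closed w ∧
      T ≤ G ∧ T.IsTree ∧ (∀ v, coIntervals R T v ≤ visits w (Sum.inl v)) ∧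
      (∀ f, treeIntervals R T f ≤ visits w (Sum.inr f)) := by
  classical
  haveI := Fintype.ofFinite V
  haveI : Fintype G.Dart := inferInstance
  haveI : Finite R.Face := Quotient.finite _
  haveI := Fintype.ofFinite R.Face
  haveI : Fintype G.edgeSet := inferInstance
  obtain ⟨M, hC, e1, e2, e3, e4, e5⟩ := Helper19.VF.stmtToPM V G R h3 hp
  haveI : Nonempty V := by
    have := h3.1
    by_contra hc
    rw [not_nonempty_iff] at hc
    simp at this
  obtain ⟨s₁, _⟩ := M.vt_surj (Classical.arbitrary V)
  obtain ⟨o, os, l, h⟩ := label G.Dart V G.edgeSet R.Face M hC s₁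
  have hsnd : ∀ d, M.vt (M.α d) = d.snd := by
    intro d; rw [e3, e2]; rfl
  obtain ⟨w, h1, ⟨a, b, h2, h4, h5⟩, h6, h7, h8⟩ := h.walk
  have hinc : ∀ x y, IncM M x y → R.Inc x y := by
    rintro (v | f) (v' | f') hxy
    · exact hxy.elim
    · obtain ⟨d, d1, d2⟩ := hxy
      exact ⟨d, by rw [← e3, d1], by rw [← e4, d2]⟩
    · obtain ⟨d, d1, d2⟩ := hxy
      exact ⟨d, by rw [← e3, d1], by rw [← e4, d2]⟩
    · exact hxy.elim
  -- the tree
  let T : SimpleGraph V :=
    { Adj := fun u v => ∃ d : G.Dart, d.fst = u ∧ d.snd = v ∧ TT M o l d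
      symm := ⟨by
        rintro u v ⟨d, d1, d2, d3⟩
        refine ⟨d.symm, d2, d1, ?_⟩
        have : M.α d = d.symm := by rw [e2]; rfl
        rw [← this, TT_α]; exact d3⟩
      loopless := ⟨by
        rintro u ⟨d, d1, d2, _⟩
        exact d.adj.ne (d1.trans d2.symm)⟩ }
  have hT : ∀ d : G.Dart, d.edge ∈ T.edgeSet ↔ TT M o l d := by
    intro d
    show T.Adj d.fst d.snd ↔ _
    constructor
    · rintro ⟨e, h1, h2, h4⟩
      have : e = d := by
        apply SimpleGraph.Dart.ext
        exact Prod.ext h1 h2
      rwa [← this]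
    · intro hd; exact ⟨d, rfl, rfl, hd⟩
  have hle : T ≤ G := by
    rintro u v ⟨d, rfl, rfl, _⟩
    exact d.adj
  refine ⟨w, T, ⟨h1.imp hinc, h6⟩, ⟨a, b, h2, h4, hinc _ _ h5⟩, hle, ?_, ?_, ?_⟩
  · rw [SimpleGraph.isTree_iff_connected_and_card]
    constructor
    · -- connected
      have hr : ∀ d : G.Dart, T.Reachable s₁.fst d.fst := by
        intro d
        obtain ⟨n, hn⟩ := (h.orbit d).exists_nat_pow_eq
        have : ∀ n : ℕ, T.Reachable s₁.fst (((ψ M o l) ^ n) s₁).fst := by
          intro n
          induction n with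
          | zero => exact SimpleGraph.Reachable.refl _
          | succ n ih =>
            rw [pow_succ']
            show T.Reachable s₁.fst (ψ M o l (((ψ M o l) ^ n) s₁)).fst
            generalize ((ψ M o l) ^ n) s₁ = e at *
            by_cases ht : TT M o l e
            · rw [ψ_T ht, ← e3 (M.σ (M.α e)), M.vt_σ, hsnd]
              exact ih.trans (SimpleGraph.Adj.reachable ⟨e, rfl, rfl, ht⟩)
            · rw [ψ_C ht, ← e3 (M.σ e), M.vt_σ, e3]
              exact ih
        rw [← hn]
        exact this n
      have hr' : ∀ v, T.Reachable s₁.fst v := by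
        intro v
        obtain ⟨d, hd⟩ := M.vt_surj v
        rw [e3] at hd
        rw [← hd]
        exact hr d
      exact ⟨fun u v => (hr' u).symm.trans (hr' v)⟩
    · -- number of edges
      have hex : ∀ v : {v : V // v ≠ M.vt s₁}, ∃ c, M.vt c = v.1 ∧ o c = 1 ∧ l c = 2 := by
        intro v
        refine h.ev_exists ?_
        rintro (⟨_, h1⟩ | ⟨h1, _⟩ | ⟨h1, _⟩)
        · exact v.2 h1
        · exact absurd h1 (by decide)
        · exact absurd h1 (by decide)
      choose c c1 c2 using hex
      have hf : Function.Bijective (fun v : {v : V // v ≠ M.vt s₁} =>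
          (⟨(c v).edge, (hT _).2 (Or.inl (c2 v))⟩ : T.edgeSet)) := by
        constructor
        · intro u v huv
          have huv : (c u).edge = (c v).edge := congrArg Subtype.val huv
          rcases (SimpleGraph.dart_edge_eq_iff _ _).1 huv with h1 | h1
          · apply Subtype.ext
            rw [← c1 u, ← c1 v, h1]
          · exfalso
            have hα : M.α (c v) = c u := by rw [e2, h1]; rfl
            have hu := c2 u
            have hv := c2 v
            rcases h.dart_cases (c v) with ⟨q1, q2, q3, q4, q5⟩ | ⟨q1, q2, q3, q4, q5⟩ |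
              ⟨q1, q2, q3, q4, q5⟩ | ⟨q1, q2, q3, q4, q5⟩ <;>
            · rw [hα, hu.2, hv.2] at q5
              exact absurd q5 (by decide)
        · rintro ⟨e, he⟩
          induction e using Sym2.ind with
          | _ u v =>
            obtain ⟨d, d1, d2, d3⟩ := he
            have d1' : d.fst = u := d1
            have d2' : d.snd = v := d2
            rcases d3 with d3 | d3
            · have hne : M.vt d ≠ M.vt s₁ := fun he => h.ev_excl rfl d3 (Or.inl ⟨rfl, he⟩)
              refine ⟨⟨M.vt d, hne⟩, ?_⟩
              have : c ⟨M.vt d, hne⟩ = d := h.ev_uniq (c1 _) rfl (c2 _) d3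
              apply Subtype.ext
              show (c ⟨M.vt d, hne⟩).edge = s(u, v)
              rw [this, ← d1', ← d2']
              rfl
            · have hne : M.vt (M.α d) ≠ M.vt s₁ :=
                fun he => h.ev_excl rfl d3 (Or.inl ⟨rfl, he⟩)
              refine ⟨⟨M.vt (M.α d), hne⟩, ?_⟩
              have : c ⟨M.vt (M.α d), hne⟩ = M.α d := h.ev_uniq (c1 _) rfl (c2 _) d3
              apply Subtype.ext
              show (c ⟨M.vt (M.α d), hne⟩).edge = s(u, v)
              rw [this, ← d1', ← d2', e2]
              exact d.edge_symm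
      rw [← Nat.card_congr (Equiv.ofBijective _ hf), Nat.card_eq_fintype_card,
        Nat.card_eq_fintype_card, Fintype.card_subtype_compl, Fintype.card_subtype_eq]
      have : 0 < Fintype.card V := Fintype.card_pos
      omega
  · intro v
    have : coIntervals R T v = (VS M o l v).card := by
      rw [coIntervals, Nat.card_eq_fintype_card, Fintype.card_subtype, VS]
      congr 1
      refine Finset.filter_congr (fun d _ => ?_)
      rw [hT, hT, e3, e1]
    rw [this]
    exact h7 v
  · intro f
    have : treeIntervals R T f = (FS M o l f).card := by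
      rw [treeIntervals, Nat.card_eq_fintype_card, Fintype.card_subtype, FS]
      congr 1
      refine Finset.filter_congr (fun d _ => ?_)
      have hn : R.next.symm d = M.α (M.σ.symm d) := by
        rw [e1, e2]; rfl
      rw [hT, hT, hn, TT_α, e4]
    rw [this]
    exact h8 f

end Helper28.VF
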