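import Pool.Agent.Helper96.VF.Goals

/-!
Project VF (MP_6829b3_nt), packet GF (helper28).
-/

set_option autoImplicit false

namespace Pool.Agent.Helper28.VF

open Pool.Agent.Helper96.VF

theorem log_four (y : ℕ) : Nat.log 4 y = Nat.log 2 y / 2 := by
  rcases Nat.eq_zero_or_pos y with rfl | hy
  · simp
  · have h1 : 2 ^ Nat.log 2 y ≤ y := Nat.pow_log_le_self 2 hy.ne'
    have h2 : y < 2 ^ (Nat.log 2 y + 1) := Nat.lt_pow_succ_log_self (by norm_num) y
    have h4 : ∀ k, 4 ^ k = 2 ^ (2 * k) := fun k => by rw [pow_mul]; norm_num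
    apply Nat.log_eq_of_pow_le_of_lt_pow
    · rw [h4]
      exact le_trans (Nat.pow_le_pow_right (by norm_num) (by omega)) h1
    · rw [h4]
      exact lt_of_lt_of_le h2 (Nat.pow_le_pow_right (by norm_num) (by omega))

/-- **GF** -/
theorem gGF : GF := by
  intro y hy
  have hy0 : y ≠ 0 := by omega
  have hH : H y = Nat.log 3 y + Nat.log 2 y / 2 + 2 := by
    rw [H, if_neg hy0, log_four]
  rcases Nat.lt_or_ge y 2 with h2 | h2
  · have h1 : y = 1 := by omega
    subst h1
    refine ⟨fun h => ?_, fun _ => ?_⟩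
    · simp at h
    · simp [g, H]
  · have hA : 1 ≤ Nat.log 2 y := Nat.log_pos (by norm_num) h2
    have hA2 : Nat.log 2 (y / 2) = Nat.log 2 y - 1 := Nat.log_div_base 2 y
    have hy2 : y / 2 ≠ 0 := by omega
    have hH2 : H (y / 2) = Nat.log 3 (y / 2) + (Nat.log 2 y - 1) / 2 + 2 := by
      rw [H, if_neg hy2, log_four, hA2]
    have b1 : 3 ^ Nat.log 3 y ≤ y := Nat.pow_log_le_self 3 hy0
    have b2 : y < 3 ^ (Nat.log 3 y + 1) := Nat.lt_pow_succ_log_self (by norm_num) y
    have up : Nat.log 3 (y / 2) ≤ Nat.log 3 y := Nat.log_mono_right (Nat.div_le_self y 2)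
    have c1 : 2 * 3 ^ Nat.log 3 y ≤ y → Nat.log 3 (y / 2) = Nat.log 3 y := by
      intro h
      apply Nat.log_eq_of_pow_le_of_lt_pow
      · omega
      · omega
    have c2 : y < 2 * 3 ^ Nat.log 3 y → Nat.log 3 (y / 2) + 1 = Nat.log 3 y := by
      intro h
      obtain ⟨B, hB⟩ : ∃ B, Nat.log 3 y = B + 1 := by
        rcases Nat.eq_zero_or_pos (Nat.log 3 y) with h0 | h0
        · rw [h0] at h
          omega
        · exact ⟨Nat.log 3 y - 1, by omega⟩
      rw [hB] at h b1 ⊢
      congr 1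
      rw [pow_succ] at h b1
      have hp : 0 < 3 ^ B := by positivity
      apply Nat.log_eq_of_pow_le_of_lt_pow
      · omega
      · rw [pow_succ]
        omega
    refine ⟨fun ⟨ho, hlt⟩ => ?_, fun hn => ?_⟩
    · have c := c2 hlt
      rw [g, hH, hH2]
      obtain ⟨k, hk⟩ := ho
      rw [hk]
      have : max (Nat.log 3 y + (2 * k + 1) / 2 + 2 - 1)
          (Nat.log 3 (y / 2) + (2 * k + 1 - 1) / 2 + 2) = Nat.log 3 y + k + 1 := by
        rw [max_eq_left] <;> omega
      rw [this]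
      omega
    · rw [g, hH, hH2]
      rcases Nat.even_or_odd (Nat.log 2 y) with he | ho
      · obtain ⟨k, hk⟩ := he
        rw [max_eq_left] <;> omega
      · have hge : 2 * 3 ^ Nat.log 3 y ≤ y := by
          by_contra hc
          exact hn ⟨ho, by omega⟩
        have c := c1 hge
        obtain ⟨k, hk⟩ := ho
        rw [max_eq_right] <;> omega

/-- **U1** -/
theorem gU1 (h1 : U1A) (h2 : U1B) (h3 : GF) : U1 := by
  intro y S hS hR
  rcases Nat.eq_zero_or_pos y with rfl | hy
  · have : S = ∅ := by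
      rw [Finset.eq_empty_iff_forall_notMem]
      intro u hu
      have h4 := hR u hu
      have h5 : 0 < 2 ^ u.1 * 3 ^ u.2 := by positivity
      omega
    rw [this, Finset.card_empty]
    exact Nat.zero_le _
  · obtain ⟨g1, g2⟩ := h3 y hy
    by_cases hc : Odd (Nat.log 2 y) ∧ y < 2 * 3 ^ Nat.log 3 y
    · rw [g1 hc]
      exact h2 y S hy hS hR hc.1 hc.2
    · rw [g2 hc]
      exact h1 y S hy hS hR

end Pool.Agent.Helper28.VF
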