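import Pool.Agent.Helper28.VF.Core

/-!
Vertices all of whose edges are tree edges and faces all of whose edges are cotree edges: marked
corners, and the bounds for the numbers of visits.
-/

namespace Helper28.VF

open Finset Equiv

set_option linter.unusedSectionVars false

section
variable {D V E F : Type} [Fintype D] [Fintype V] [Fintype E] [Fintype F]
  [DecidableEq D] [DecidableEq V] [DecidableEq E] [DecidableEq F]
  {M : PM D V E F} {s₁ s₂ s₃ : D} {o os : D → ℕ} {l : D → ZMod 3}

/-- A property closed under `σ` on the darts of a vertex holds at all of them. -/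
lemma PM.vt_ind (M : PM D V E F) {P : D → Prop} {v : V} (hP : ∀ d, M.vt d = v → P d → P (M.σ d))
    {d : D} (hd : M.vt d = v) (h : P d) : ∀ e, M.vt e = v → P e := by
  intro e he
  obtain ⟨n, hn⟩ := ((M.vt_iff d e).1 (hd.trans he.symm)).exists_nat_pow_eq
  have : ∀ n : ℕ, M.vt ((M.σ ^ n) d) = v ∧ P ((M.σ ^ n) d) := by
    intro n
    induction n with
    | zero => exact ⟨hd, h⟩
    | succ n ih =>
      rw [pow_succ']
      exact ⟨(M.vt_σ _).trans ih.1, hP _ ih.1 ih.2⟩
  rw [← hn]
  exact (this n).2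

/-- A property closed under `φ` on the darts of a face holds at all of them. -/
lemma PM.fc_ind (M : PM D V E F) {P : D → Prop} {f : F}
    (hP : ∀ d, M.fc d = f → P d → P (M.σ (M.α d)))
    {d : D} (hd : M.fc d = f) (h : P d) : ∀ e, M.fc e = f → P e := by
  intro e he
  obtain ⟨n, hn⟩ := ((M.fc_iff d e).1 (hd.trans he.symm)).exists_nat_pow_eq
  have : ∀ n : ℕ, M.fc (((M.σ * M.α) ^ n) d) = f ∧ P (((M.σ * M.α) ^ n) d) := by
    intro n
    induction n with
    | zero => exact ⟨hd, h⟩
    | succ n ih =>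
      rw [pow_succ']
      exact ⟨(M.fc_φ _).trans ih.1, hP _ ih.1 ih.2⟩
  rw [← hn]
  exact (this n).2

/-- All edges at `v` are tree edges. -/
def AllT (M : PM D V E F) (o : D → ℕ) (l : D → ZMod 3) (v : V) : Prop :=
  ∀ c, M.vt c = v → TT M o l c

/-- All edges of `f` are cotree edges. -/
def AllC (M : PM D V E F) (o : D → ℕ) (l : D → ZMod 3) (f : F) : Prop :=
  ∀ c, M.fc c = f → ¬ TT M o l c

/-- Marked corners of vertices all of whose edges are tree edges. -/
def markV (M : PM D V E F) (o : D → ℕ) (l : D → ZMod 3) (c : D) : Prop :=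
  AllT M o l (M.vt c) ∧ o (M.σ.symm c) = 1 ∧ l (M.σ.symm c) = 0

/-- Marked corners of faces all of whose edges are cotree edges. -/
def markF (M : PM D V E F) (o os : D → ℕ) (l : D → ZMod 3) (c : D) : Prop :=
  AllC M o l (M.fc c) ∧ os c = 1 ∧ l c = 1

namespace Sch

variable (h : Sch M s₁ s₂ s₃ o os l)
include h

lemma T_s₁ : TT M o l s₁ := by
  have h0 := h.os_zero (d := s₁) rfl
  rcases h.table s₁ with ⟨h4, h5, h6, h7⟩ | ⟨h4, h5, h6, h7⟩ | ⟨h4, h5, h6, h7⟩ | ⟨h4, h5, h6, h7⟩
  · omega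
  · omega
  · rw [h6, h.l_s₁]; decide
  · omega

lemma C_s₂ : ¬ TT M o l s₂ := by
  have h0 := h.os_zero (d := s₂) h.s12.symm
  rcases h.table s₂ with ⟨h4, h5, h6, h7⟩ | ⟨h4, h5, h6, h7⟩ | ⟨h4, h5, h6, h7⟩ | ⟨h4, h5, h6, h7⟩
  · omega
  · omega
  · rw [h6, h.l_s₂]; decide
  · omega

/-- The dart before `s₃` around the vertex of `s₃` is a cotree dart. -/
lemma C_s₃ : ¬ TT M o l (M.σ.symm s₃) := by
  have hd : M.fc (M.α (M.σ.symm s₃)) = M.fc s₁ := (h.fc_prev s₃).trans h.s13.symm
  have h0 := h.os_zero hd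
  have h1 := h.l_φ (M.α (M.σ.symm s₃))
  rw [M.α_inv] at h1
  simp only [apply_symm_apply] at h1
  rw [h0, h.l_s₃, if_pos (Or.inr (Or.inr trivial))] at h1
  rw [← TT_α]
  rcases h.table (M.α (M.σ.symm s₃)) with ⟨h4, h5, h6, h7⟩ | ⟨h4, h5, h6, h7⟩ |
    ⟨h4, h5, h6, h7⟩ | ⟨h4, h5, h6, h7⟩
  · omega
  · omega
  · rw [h6]
    generalize l (M.α (M.σ.symm s₃)) = x at *
    clear h6 h7
    revert x; decide
  · omega

lemma vt_prev (c : D) : M.vt (M.σ.symm c) = M.vt c := by
  rw [← M.vt_σ]; simp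

/-- Every vertex has a tree dart. -/
lemma exists_T (v : V) : ∃ c, M.vt c = v ∧ TT M o l c := by
  by_cases hv : v = M.vt s₁
  · exact ⟨s₁, hv.symm, h.T_s₁⟩
  · obtain ⟨c, h1, h2, h3⟩ := h.ev_exists (v := v) (x := 2) (by
      rintro (⟨_, h1⟩ | ⟨h1, _⟩ | ⟨h1, _⟩)
      · exact hv h1
      · exact absurd h1 (by decide)
      · exact absurd h1 (by decide))
    exact ⟨c, h1, Or.inl ⟨h2, h3⟩⟩

/-- Every face has a cotree dart. -/
lemma exists_C (f : F) : ∃ c, M.fc c = f ∧ ¬ TT M o l c := by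
  by_cases hf : f = M.fc s₁
  · exact ⟨s₂, by rw [hf, h.s12], h.C_s₂⟩
  · obtain ⟨c, h1, h2, h3⟩ := h.evf_exists hf 0
    refine ⟨c, h1, ?_⟩
    rw [h.TC, not_not]
    exact Or.inl ⟨h2, h3⟩

lemma VS_pos {v : V} (hv : ¬ AllT M o l v) : 1 ≤ (VS M o l v).card := by
  by_contra hc
  have hc : (VS M o l v).card = 0 := by omega
  rw [Finset.card_eq_zero] at hc
  obtain ⟨c, h1, h2⟩ := h.exists_T v
  refine hv (M.vt_ind (P := fun c => TT M o l c) (fun d hd ht => ?_) h1 h2)
  by_contra hn
  have : M.σ d ∈ VS M o l v := by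
    simp only [VS, mem_filter, mem_univ, true_and]
    exact ⟨(M.vt_σ d).trans hd, by simpa using ht, hn⟩
  rw [hc] at this
  simp at this

lemma FS_pos {f : F} (hf : ¬ AllC M o l f) : 1 ≤ (FS M o l f).card := by
  by_contra hc
  have hc : (FS M o l f).card = 0 := by omega
  rw [Finset.card_eq_zero] at hc
  obtain ⟨c, h1, h2⟩ := h.exists_C f
  refine hf (M.fc_ind (P := fun c => ¬ TT M o l c) (fun d hd ht => ?_) h1 h2)
  intro hn
  have : M.σ (M.α d) ∈ FS M o l f := by
    simp only [FS, mem_filter, mem_univ, true_and]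
    exact ⟨(M.fc_φ d).trans hd, by rw [symm_apply_apply, TT_α]; exact ht, hn⟩
  rw [hc] at this
  simp at this

lemma VS_AllT {v : V} (hv : AllT M o l v) : VS M o l v = ∅ := by
  rw [VS, Finset.filter_eq_empty_iff]
  rintro c - ⟨h1, _, h3⟩
  exact h3 (hv c h1)

lemma FS_AllC {f : F} (hf : AllC M o l f) : FS M o l f = ∅ := by
  rw [FS, Finset.filter_eq_empty_iff]
  rintro c - ⟨h1, _, h3⟩
  exact hf c h1 h3

/-- A marked corner of a vertex has label `1` and lies in an inner face with `os = 1`. -/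
lemma markV_spec {c : D} (hc : markV M o l c) : l c = 1 ∧ os c = 1 ∧ M.fc c ≠ M.fc s₁ := by
  obtain ⟨h1, h2, h3⟩ := hc
  have hn := h.l_next c
  rw [h2, h3] at hn
  have hl : l c = 1 := by
    by_cases hs : c = s₁ ∨ c = s₂ ∨ c = s₃
    · rw [if_pos hs] at hn
      rcases hs with rfl | rfl | rfl
      · rw [h.l_s₁] at hn; exact absurd hn (by decide)
      · exact h.l_s₂
      · exact absurd (h1 _ (h.vt_prev _)) h.C_s₃
    · rw [if_neg hs] at hn
      rw [hn]; decide
  have ht := h1 c rfl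
  have hos : os c = 1 := by
    rcases h.table c with ⟨h4, h5, h6, h7⟩ | ⟨h4, h5, h6, h7⟩ | ⟨h4, h5, h6, h7⟩ | ⟨h4, h5, h6, h7⟩
    · exact h5
    · exact h5
    · exact absurd hl (h6.1 ht)
    · exact h5
  refine ⟨hl, hos, fun hf => ?_⟩
  have := h.os_zero hf
  omega

lemma markF_spec {c : D} (hc : markF M o os l c) : o c = 1 ∧ ¬ TT M o l c ∧
    ¬ TT M o l (M.σ.symm c) ∧ M.fc c ≠ M.fc s₁ := by
  obtain ⟨h1, h2, h3⟩ := hc
  have ht := h1 c rfl
  refine ⟨?_, ht, ?_, ?_⟩
  · rcases h.table c with ⟨h4, h5, h6, h7⟩ | ⟨h4, h5, h6, h7⟩ | ⟨h4, h5, h6, h7⟩ | ⟨h4, h5, h6, h7⟩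
    · exact absurd (h6.2 h3) ht
    · exact h4
    · exact h4
    · exact h4
  · rw [← TT_α]
    exact h1 _ (h.fc_prev c)
  · intro hf
    have := h.os_zero hf
    omega

open Classical in
/-- Visits to `v`. -/
lemma countV (v : V) :
    1 ≤ (VS M o l v).card + (univ.filter (fun c => M.vt c = v ∧ markV M o l c)).card +
      (univ.filter (fun c => M.vt c = v ∧ markF M o os l c)).card ∧
    (VS M o l v).card + (univ.filter (fun c => M.vt c = v ∧ markV M o l c)).card +
      (univ.filter (fun c => M.vt c = v ∧ markF M o os l c)).card ≤ 2 := by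
  by_cases hv : AllT M o l v
  · have e1 : VS M o l v = ∅ := h.VS_AllT hv
    have e2 : (univ.filter (fun c => M.vt c = v ∧ markF M o os l c)) = ∅ := by
      rw [Finset.filter_eq_empty_iff]
      rintro c - ⟨h1, h2⟩
      exact (h.markF_spec h2).2.1 (hv c h1)
    have e3 : (univ.filter (fun c => M.vt c = v ∧ markV M o l c)).card = 1 := by
      have hv2 : v ≠ M.vt s₂ := fun he => h.C_s₂ (hv s₂ he.symm)
      obtain ⟨d, d1, d2, d3⟩ := h.ev_exists (v := v) (x := 0) (by
        rintro (⟨h1, _⟩ | ⟨_, h1⟩ | ⟨h1, _⟩)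
        · exact absurd h1 (by decide)
        · exact hv2 h1
        · exact absurd h1 (by decide))
      rw [Finset.card_eq_one]
      refine ⟨M.σ d, ?_⟩
      ext c
      simp only [mem_filter, mem_univ, true_and, mem_singleton]
      constructor
      · rintro ⟨c1, c2, c3, c4⟩
        have := h.ev_uniq ((h.vt_prev c).trans c1) d1 ⟨c3, c4⟩ ⟨d2, d3⟩
        rw [← this]; simp
      · rintro rfl
        refine ⟨(M.vt_σ d).trans d1, ?_, ?_, ?_⟩
        · rw [M.vt_σ, d1]; exact hv
        · simpa using d2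
        · simpa using d3
    rw [e1, e2, e3]
    simp
  · have e1 : (univ.filter (fun c => M.vt c = v ∧ markV M o l c)) = ∅ := by
      rw [Finset.filter_eq_empty_iff]
      rintro c - ⟨h1, h2⟩
      exact hv (by rw [← h1]; exact h2.1)
    have e2 := h.VS_pos hv
    have e3 := h.VS_le v
    have e4 : (univ.filter (fun c => M.vt c = v ∧ markF M o os l c)).card ≤ 1 := by
      rw [Finset.card_le_one]
      intro c hc d hd
      simp only [mem_filter, mem_univ, true_and] at hc hd
      exact h.ev_uniq hc.1 hd.1 ⟨(h.markF_spec hc.2).1, hc.2.2.2⟩ ⟨(h.markF_spec hd.2).1, hd.2.2.2⟩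
    rw [e1]
    by_cases e5 : (univ.filter (fun c => M.vt c = v ∧ markF M o os l c)).card = 0
    · rw [e5, Finset.card_empty]; omega
    · obtain ⟨c, hc⟩ := Finset.card_pos.1 (Nat.pos_of_ne_zero e5)
      simp only [mem_filter, mem_univ, true_and] at hc
      obtain ⟨c1, c2⟩ := hc
      have c3 := h.markF_spec c2
      have c4 : o c = 1 ∧ l c = 1 := ⟨c3.1, c2.2.2⟩
      have e6 : (VS M o l v).filter (fun c => ¬ l c = 0) = ∅ := by
        rw [Finset.filter_eq_empty_iff]
        intro d hd hl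
        simp only [VS, mem_filter, mem_univ, true_and] at hd
        obtain ⟨d1, d2, d3⟩ := hd
        have vd : M.vt (M.σ.symm d) = v := (h.vt_prev d).trans d1
        rcases h.vs_nonzero d2 d3 hl with hd | hd | hd
        · have := h.ev_uniq d1 c1 hd c4
          rw [this] at d2
          exact c3.2.2.1 d2
        · have := h.ev_uniq vd c1 hd c4
          rw [this] at d2
          exact c3.2.1 d2
        · exact h.ev_excl c1 c4 (Or.inr (Or.inr ⟨rfl, by rw [← d1, hd]⟩))
      have e7 := h.VS_zero v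
      have e8 := Finset.card_filter_add_card_filter_not (s := VS M o l v) (fun c => l c = 0)
      rw [e6] at e8
      simp at e8 ⊢
      omega

open Classical in
/-- Visits to `f`. -/
lemma countF (f : F) :
    1 ≤ (FS M o l f).card + (univ.filter (fun c => M.fc c = f ∧ markV M o l c)).card +
      (univ.filter (fun c => M.fc c = f ∧ markF M o os l c)).card ∧
    (FS M o l f).card + (univ.filter (fun c => M.fc c = f ∧ markV M o l c)).card +
      (univ.filter (fun c => M.fc c = f ∧ markF M o os l c)).card ≤ 2 := by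
  by_cases hf : AllC M o l f
  · have hf1 : f ≠ M.fc s₁ := fun he => hf s₁ he.symm h.T_s₁
    have e1 : FS M o l f = ∅ := h.FS_AllC hf
    have e2 : (univ.filter (fun c => M.fc c = f ∧ markV M o l c)) = ∅ := by
      rw [Finset.filter_eq_empty_iff]
      rintro c - ⟨h1, h2⟩
      exact hf c h1 (h2.1 c rfl)
    have e3 : (univ.filter (fun c => M.fc c = f ∧ markF M o os l c)).card = 1 := by
      obtain ⟨d, d1, d2, d3⟩ := h.evf_exists hf1 1
      rw [Finset.card_eq_one]
      refine ⟨d, ?_⟩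
      ext c
      simp only [mem_filter, mem_univ, true_and, mem_singleton]
      constructor
      · rintro ⟨c1, c2, c3, c4⟩
        exact h.evf_uniq hf1 c1 d1 ⟨c3, c4⟩ ⟨d2, d3⟩
      · rintro rfl
        exact ⟨d1, by rw [d1]; exact hf, d2, d3⟩
    rw [e1, e2, e3]
    simp
  · have e1 : (univ.filter (fun c => M.fc c = f ∧ markF M o os l c)) = ∅ := by
      rw [Finset.filter_eq_empty_iff]
      rintro c - ⟨h1, h2⟩
      exact hf (by rw [← h1]; exact h2.1)
    have e2 := h.FS_pos hf
    have e3 := h.FS_le f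
    rw [e1]
    by_cases e5 : (univ.filter (fun c => M.fc c = f ∧ markV M o l c)).card = 0
    · rw [e5, Finset.card_empty]; omega
    · obtain ⟨c, hc⟩ := Finset.card_pos.1 (Nat.pos_of_ne_zero e5)
      simp only [mem_filter, mem_univ, true_and] at hc
      obtain ⟨c1, c2⟩ := hc
      have c3 := h.markV_spec c2
      have hf1 : f ≠ M.fc s₁ := by rw [← c1]; exact c3.2.2
      have e4 : (univ.filter (fun c => M.fc c = f ∧ markV M o l c)).card ≤ 1 := by
        rw [Finset.card_le_one]
        intro c hc d hd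
        simp only [mem_filter, mem_univ, true_and] at hc hd
        have c5 := h.markV_spec hc.2
        have d5 := h.markV_spec hd.2
        exact h.evf_uniq hf1 hc.1 hd.1 ⟨c5.2.1, c5.1⟩ ⟨d5.2.1, d5.1⟩
      have c4 : os c = 1 ∧ l c = 1 := ⟨c3.2.1, c3.1⟩
      have e6 : (FS M o l f).filter (fun c => ¬ l c = 2) = ∅ := by
        rw [Finset.filter_eq_empty_iff]
        intro d hd hl
        simp only [FS, mem_filter, mem_univ, true_and] at hd
        obtain ⟨d1, d2, d3⟩ := hd
        rcases h.fs_other (by rwa [d1]) d2 d3 hl with hd | hd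
        · have := h.evf_uniq hf1 d1 c1 hd c4
          rw [this] at d2
          exact d2 (c2.1 _ (h.vt_prev c))
        · have := h.evf_uniq hf1 ((h.fc_prev d).trans d1) c1 hd c4
          rw [← TT_α, this] at d2
          exact d2 (c2.1 c rfl)
      have e7 := h.FS_two hf1
      have e8 := Finset.card_filter_add_card_filter_not (s := FS M o l f) (fun c => l c = 2)
      rw [e6] at e8
      simp at e8 ⊢
      omega

end Sch

end

end Helper28.VF
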