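import Mathlib

/-!
Public definitions for MP_8b6ec2_co: plane graphs as simple graphs with a planar rotation system,
faces, vertex-face walks, and intervals of (non-)tree edges around vertices and faces.
-/

namespace Helper28.VF

/-- A rotation system of a simple graph `G`: a cyclic order of the darts (directed edges) leaving
each vertex, given by the permutation `rot` taking each dart to the next one around its vertex. -/
structure Rotation {V : Type} (G : SimpleGraph V) where
  rot : Equiv.Perm G.Dart
  fst_rot : ∀ d, (rot d).fst = d.fst
  cyclic : ∀ d e : G.Dart, d.fst = e.fst → rot.SameCycle d e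

open Classical in
/-- The number of visits of the sequence `w` to `x`. -/
noncomputable def visits {X : Type} (w : List X) (x : X) : ℕ := w.countP (fun y => decide (y = x))

/-- Reversal of darts. -/
def rev {V : Type} (G : SimpleGraph V) : Equiv.Perm G.Dart where
  toFun := SimpleGraph.Dart.symm
  invFun := SimpleGraph.Dart.symm
  left_inv := fun d => d.symm_symm
  right_inv := fun d => d.symm_symm

namespace Rotation

variable {V : Type} {G : SimpleGraph V} (R : Rotation G)

/-- Face tracing: from a dart `u → v` to the dart `v → w` following `v → u` in the rotation. -/
def next : Equiv.Perm G.Dart := R.rot * rev G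

/-- Faces are the orbits of face tracing. -/
def Face : Type := Quotient (Equiv.Perm.SameCycle.setoid R.next)

/-- The face of a dart. -/
def face (d : G.Dart) : R.Face := Quotient.mk (Equiv.Perm.SameCycle.setoid R.next) d

/-- The vertex `v` lies on the boundary of the face `f`. -/
def Incident (v : V) (f : R.Face) : Prop := ∃ d : G.Dart, d.fst = v ∧ R.face d = f

/-- The rotation system describes an embedding in the sphere (Euler's formula; used for connected
graphs only). -/
def Planar : Prop := Nat.card V + Nat.card R.Face = Nat.card G.edgeSet + 2

/-- Incidence of elements (vertices and faces); two vertices or two faces are never incident. -/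
def Inc : V ⊕ R.Face → V ⊕ R.Face → Prop
  | Sum.inl v, Sum.inr f => R.Incident v f
  | Sum.inr f, Sum.inl v => R.Incident v f
  | _, _ => False

/-- `w` is a vertex-face walk visiting every vertex and every face between `1` and `c` times. -/
def CoveringWalk (c : ℕ) (w : List (V ⊕ R.Face)) : Prop :=
  w.IsChain R.Inc ∧ ∀ x, 1 ≤ visits w x ∧ visits w x ≤ c

/-- The last element of the walk is incident with the first one. -/
def Closed (w : List (V ⊕ R.Face)) : Prop := ∃ a b, w.head? = some a ∧ w.getLast? = some b ∧
  R.Inc b a

end Rotation

/-- `G` is `3`-connected: at least four vertices, and connected after deleting at most two. -/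
def ThreeConnected {V : Type} (G : SimpleGraph V) : Prop :=
  4 ≤ Nat.card V ∧ ∀ S : Finset V, S.card ≤ 2 → (G.induce ((S : Set V)ᶜ)).Connected

/-- Number of maximal intervals of edges outside `T` in the rotation at `v` (counted by their first
darts: the preceding edge is in `T`). -/
noncomputable def coIntervals {V : Type} {G : SimpleGraph V} (R : Rotation G) (T : SimpleGraph V)
    (v : V) : ℕ :=
  Nat.card {d : G.Dart // d.fst = v ∧ (R.rot.symm d).edge ∈ T.edgeSet ∧ d.edge ∉ T.edgeSet}

/-- Number of maximal intervals of edges of `T` on the boundary walk of `f` (counted by their first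
darts: the preceding edge is not in `T`). -/
noncomputable def treeIntervals {V : Type} {G : SimpleGraph V} (R : Rotation G) (T : SimpleGraph V)
    (f : R.Face) : ℕ :=
  Nat.card {d : G.Dart // R.face d = f ∧ (R.next.symm d).edge ∉ T.edgeSet ∧ d.edge ∈ T.edgeSet}

end Helper28.VF
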