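import Pool.Agent.Helper28.VF.Defs
import Pool.Agent.Helper28.VF.Pub

/-!
Statements of the packets on plane graphs.
-/

namespace Helper28.VF

/-- Packet LOWER: a `3`-connected plane graph without a walk visiting everything exactly once. -/
def StmtLower : Prop :=
  ∃ (G : SimpleGraph (Fin 6)) (R : Rotation G), ThreeConnected G ∧ R.Planar ∧
    ¬ ∃ w, R.CoveringWalk 1 w

/-- Packet TOPM: the plane map of a rotation system. -/
def StmtToPM : Prop :=
  ∀ (V : Type) [Fintype V] [DecidableEq V] (G : SimpleGraph V) [Fintype G.Dart] [DecidableEq G.Dart]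
    [Fintype G.edgeSet] [DecidableEq G.edgeSet] (R : Rotation G) [Fintype R.Face]
    [DecidableEq R.Face],
    ThreeConnected G → R.Planar →
    ∃ M : PM G.Dart V G.edgeSet R.Face, M.C3 ∧ M.σ = R.rot ∧ M.α = rev G ∧
      (∀ d, M.vt d = d.fst) ∧ (∀ d, M.fc d = R.face d) ∧ (∀ d, (M.ed d : Sym2 V) = d.edge)

/-- Packet TREE: walking around a rooted tree component.  `T` marks the tree darts, `O` the darts
pointing to the parent. -/
def StmtTree : Prop :=
  ∀ (D V : Type) [Fintype D] [Fintype V] [DecidableEq D] [DecidableEq V] (σ α : Equiv.Perm D)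
    (vt : D → V) (T O : D → Prop) (ψ : Equiv.Perm D) (r : V),
    (∀ d, α (α d) = d) → (∀ d e, vt d = vt e ↔ σ.SameCycle d e) →
    (∀ d, T d ↔ (O d ∨ O (α d))) → (∀ d, O d → vt d ≠ r) →
    (∀ v, v ≠ r → ∃ d, vt d = v ∧ O d) → (∀ d e, vt d = vt e → O d → O e → d = e) →
    (∀ d, T d → ψ d = σ (α d)) → (∀ d, ¬ T d → ψ d = σ d) →
    ∃ A : V → Prop, A r ∧ (∀ d, T d → (A (vt d) ↔ A (vt (α d)))) ∧
      (∀ d, A (vt d) → ψ.SameCycle d (σ d))

end Helper28.VF
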