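import Pool.Agent.Helper28.VF.Marks
import Pool.Agent.Helper28.VF.Plane
import Pool.Agent.Helper19.VF.Tree

/-!
The closed curve around the spanning tree passes all corners; it gives a closed vertex-face walk
visiting every vertex and every face once or twice.
-/

namespace Helper28.VF

open Finset Equiv

set_option linter.unusedSectionVars false

/-- `l` continues a walk from `a` and ends in `b`. -/
def WF {X : Type} (R : X → X → Prop) : X → List X → X → Prop
  | a, [], b => a = b
  | a, x :: l, b => R a x ∧ WF R x l b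

lemma WF.append {X : Type} {R : X → X → Prop} : ∀ {a b c : X} {l m : List X},
    WF R a l b → WF R b m c → WF R a (l ++ m) c
  | a, b, c, [], m, h1, h2 => by
    have h1 : a = b := h1
    subst h1
    exact h2
  | a, b, c, x :: l, m, h1, h2 => ⟨h1.1, WF.append h1.2 h2⟩

lemma WF.isChain {X : Type} {R : X → X → Prop} : ∀ {a b : X} {l : List X},
    WF R a l b → (a :: l).IsChain R
  | a, b, [], _ => List.IsChain.singleton a
  | a, b, x :: l, h => List.isChain_cons_cons.2 ⟨h.1, WF.isChain h.2⟩

lemma WF.getLast {X : Type} {R : X → X → Prop} : ∀ {a b : X} {l : List X},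
    WF R a l b → (a :: l).getLast? = some b
  | a, b, [], h => by
    have h : a = b := h
    simp [h]
  | a, b, x :: l, h => by
    rw [List.getLast?_cons_cons]
    exact WF.getLast h.2

lemma WF.flatMap {X D : Type} {R : X → X → Prop} (ψ : D → D) (B : D → List X) (q : D → X)
    (hB : ∀ d, WF R (q d) (B d) (q (ψ d))) : ∀ (n : ℕ) (x : D),
    WF R (q x) ((List.iterate ψ x n).flatMap B) (q (ψ^[n] x))
  | 0, x => rfl
  | n + 1, x => by
    rw [List.iterate, List.flatMap_cons]
    exact WF.append (hB x) (WF.flatMap ψ B q hB n (ψ x))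

section
variable {D V E F : Type} [Fintype D] [Fintype V] [Fintype E] [Fintype F]
  [DecidableEq D] [DecidableEq V] [DecidableEq E] [DecidableEq F]
  {M : PM D V E F} {s₁ s₂ s₃ : D} {o os : D → ℕ} {l : D → ZMod 3}

/-- Reverse exactly the tree darts. -/
def β (M : PM D V E F) (o : D → ℕ) (l : D → ZMod 3) : Perm D where
  toFun d := if TT M o l d then M.α d else d
  invFun d := if TT M o l d then M.α d else d
  left_inv d := by
    by_cases h : TT M o l d
    · simp [h, TT_α, M.α_inv]
    · simp [h]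
  right_inv d := by
    by_cases h : TT M o l d
    · simp [h, TT_α, M.α_inv]
    · simp [h]

/-- Walking around the tree. -/
def ψ (M : PM D V E F) (o : D → ℕ) (l : D → ZMod 3) : Perm D := M.σ * β M o l

lemma ψ_T {d : D} (h : TT M o l d) : ψ M o l d = M.σ (M.α d) := by
  simp [ψ, β, h]

lemma ψ_C {d : D} (h : ¬ TT M o l d) : ψ M o l d = M.σ d := by
  simp [ψ, β, h]

/-- Incidence in a map. -/
def IncM (M : PM D V E F) : V ⊕ F → V ⊕ F → Prop
  | Sum.inl v, Sum.inr f => ∃ d, M.vt d = v ∧ M.fc d = f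
  | Sum.inr f, Sum.inl v => ∃ d, M.vt d = v ∧ M.fc d = f
  | _, _ => False

namespace Sch

variable (h : Sch M s₁ s₂ s₃ o os l)
include h

lemma orbit : ∀ d, (ψ M o l).SameCycle s₁ d := by
  obtain ⟨A, A1, A2, A3⟩ := Helper19.VF.stmtTree D V M.σ M.α M.vt (TT M o l)
    (fun d => o d = 1 ∧ l d = 2) (ψ M o l) (M.vt s₁) M.α_inv M.vt_iff
    (fun d => Iff.rfl)
    (fun d hd he => h.ev_excl rfl hd (Or.inl ⟨rfl, he⟩))
    (fun v hv => h.ev_exists (by
      rintro (⟨_, h1⟩ | ⟨h1, _⟩ | ⟨h1, _⟩)
      · exact hv h1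
      · exact absurd h1 (by decide)
      · exact absurd h1 (by decide)))
    (fun d e hde h1 h2 => h.ev_uniq hde rfl h1 h2)
    (fun d hd => ψ_T hd) (fun d hd => ψ_C hd)
  obtain ⟨B, B1, B2, B3⟩ := Helper19.VF.stmtTree D F (M.σ * M.α) M.α M.fc
    (fun d => ¬ TT M o l d)
    (fun d => os d = 1 ∧ l d = 0) (ψ M o l) (M.fc s₁) M.α_inv M.fc_iff
    (fun d => by rw [h.TC, not_not]; rfl)
    (fun d hd he => by have := h.os_zero he; omega)
    (fun f hf => h.evf_exists hf 0)
    (fun d e hde h1 h2 => by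
      have hf : M.fc e ≠ M.fc s₁ := fun he => by have := h.os_zero he; omega
      exact h.evf_uniq hf hde rfl h1 h2)
    (fun d hd => by rw [ψ_C hd]; simp [M.α_inv])
    (fun d hd => by rw [not_not] at hd; rw [ψ_T hd]; simp)
  have hP : ∀ d, (ψ M o l).SameCycle s₁ d → A (M.vt d) ∧ B (M.fc d) := by
    intro d hd
    obtain ⟨n, hn⟩ := hd.exists_nat_pow_eq
    have : ∀ n : ℕ, A (M.vt (((ψ M o l) ^ n) s₁)) ∧ B (M.fc (((ψ M o l) ^ n) s₁)) := by
      intro n
      induction n with
      | zero => exact ⟨A1, B1⟩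
      | succ n ih =>
        rw [pow_succ']
        show A (M.vt (ψ M o l (((ψ M o l) ^ n) s₁))) ∧ B (M.fc (ψ M o l (((ψ M o l) ^ n) s₁)))
        generalize ((ψ M o l) ^ n) s₁ = e at *
        by_cases ht : TT M o l e
        · rw [ψ_T ht, M.vt_σ, M.fc_φ]
          exact ⟨(A2 e ht).1 ih.1, ih.2⟩
        · rw [ψ_C ht, M.vt_σ, M.fc_σ]
          exact ⟨ih.1, (B2 e ht).1 ih.2⟩
    rw [← hn]
    exact this n
  refine M.conn _ ⟨s₁, Perm.SameCycle.refl _ _⟩ (fun d hd => ?_) (fun d hd => ?_)
  · exact hd.trans (A3 d (hP d hd).1)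
  · have h1 : (ψ M o l).SameCycle s₁ (M.σ (M.α d)) := hd.trans (B3 d (hP d hd).2)
    have h2 := (hP _ h1).1
    rw [M.vt_σ] at h2
    exact h1.trans (A3 _ h2).symm

open Classical in
/-- The elements appended when passing the corner `d`. -/
noncomputable def BB (_ : Sch M s₁ s₂ s₃ o os l) (d : D) : List (V ⊕ F) :=
  if TT M o l (M.σ.symm d) then
    (if TT M o l d then (if markV M o l d then [Sum.inl (M.vt d), Sum.inr (M.fc d)] else [])
      else [Sum.inl (M.vt d)])
  else
    (if TT M o l d then [Sum.inr (M.fc d)]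
      else (if markF M o os l d then [Sum.inr (M.fc d), Sum.inl (M.vt d)] else []))

/-- The current element before the corner `d`. -/
def QQ (_ : Sch M s₁ s₂ s₃ o os l) (d : D) : V ⊕ F :=
  if TT M o l (M.σ.symm d) then Sum.inr (M.fc d) else Sum.inl (M.vt d)

lemma WF_BB (d : D) : WF (IncM M) (h.QQ d) (h.BB d) (h.QQ (ψ M o l d)) := by
  have i1 : IncM M (Sum.inl (M.vt d)) (Sum.inr (M.fc d)) := ⟨d, rfl, rfl⟩
  have i2 : IncM M (Sum.inr (M.fc d)) (Sum.inl (M.vt d)) := ⟨d, rfl, rfl⟩
  by_cases h1 : TT M o l d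
  · have e1 : h.QQ (ψ M o l d) = Sum.inr (M.fc d) := by
      rw [ψ_T h1, QQ, if_pos (by simpa [TT_α] using h1), M.fc_φ]
    rw [e1]
    by_cases h2 : TT M o l (M.σ.symm d)
    · by_cases h3 : markV M o l d
      · rw [QQ, if_pos h2, BB, if_pos h2, if_pos h1, if_pos h3]
        exact ⟨i2, i1, rfl⟩
      · rw [QQ, if_pos h2, BB, if_pos h2, if_pos h1, if_neg h3]
        exact rfl
    · rw [QQ, if_neg h2, BB, if_neg h2, if_pos h1]
      exact ⟨i1, rfl⟩
  · have e1 : h.QQ (ψ M o l d) = Sum.inl (M.vt d) := by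
      rw [ψ_C h1, QQ, if_neg (by simpa using h1), M.vt_σ]
    rw [e1]
    by_cases h2 : TT M o l (M.σ.symm d)
    · rw [QQ, if_pos h2, BB, if_pos h2, if_neg h1]
      exact ⟨i2, rfl⟩
    · by_cases h3 : markF M o os l d
      · rw [QQ, if_neg h2, BB, if_neg h2, if_neg h1, if_pos h3]
        exact ⟨i1, i2, rfl⟩
      · rw [QQ, if_neg h2, BB, if_neg h2, if_neg h1, if_neg h3]
        exact rfl

open Classical in
lemma count_inl (d : D) (v : V) : visits (h.BB d) (Sum.inl v) =
    (if M.vt d = v ∧ TT M o l (M.σ.symm d) ∧ ¬ TT M o l d then 1 else 0) +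
    (if M.vt d = v ∧ markV M o l d then 1 else 0) +
    (if M.vt d = v ∧ markF M o os l d then 1 else 0) := by
  by_cases h1 : TT M o l d
  · have n3 : ¬ markF M o os l d := fun hm => (h.markF_spec hm).2.1 h1
    by_cases h2 : TT M o l (M.σ.symm d)
    · by_cases h3 : markV M o l d
      · rw [BB, if_pos h2, if_pos h1, if_pos h3]
        by_cases hv : M.vt d = v <;> simp [visits, List.countP_cons, h1, h2, h3, n3, hv]
      · rw [BB, if_pos h2, if_pos h1, if_neg h3]
        simp [visits, List.countP_cons, visits, List.countP_cons, h1, h3, n3]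
    · have n4 : ¬ markV M o l d := fun hm => h2 (hm.1 _ (h.vt_prev d))
      rw [BB, if_neg h2, if_pos h1]
      simp [visits, List.countP_cons, h1, n3, n4]
  · have n4 : ¬ markV M o l d := fun hm => h1 (hm.1 _ rfl)
    by_cases h2 : TT M o l (M.σ.symm d)
    · have n3 : ¬ markF M o os l d := fun hm => (h.markF_spec hm).2.2.1 h2
      rw [BB, if_pos h2, if_neg h1]
      by_cases hv : M.vt d = v <;> simp [visits, List.countP_cons, h1, h2, n3, n4, hv]
    · by_cases h3 : markF M o os l d
      · rw [BB, if_neg h2, if_neg h1, if_pos h3]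
        by_cases hv : M.vt d = v <;> simp [visits, List.countP_cons, h2, h3, n4, hv]
      · rw [BB, if_neg h2, if_neg h1, if_neg h3]
        simp [visits, List.countP_cons, visits, List.countP_cons, h2, h3, n4]

open Classical in
lemma count_inr (d : D) (f : F) : visits (h.BB d) (Sum.inr f) =
    (if M.fc d = f ∧ ¬ TT M o l (M.σ.symm d) ∧ TT M o l d then 1 else 0) +
    (if M.fc d = f ∧ markV M o l d then 1 else 0) +
    (if M.fc d = f ∧ markF M o os l d then 1 else 0) := by
  by_cases h1 : TT M o l d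
  · have n3 : ¬ markF M o os l d := fun hm => (h.markF_spec hm).2.1 h1
    by_cases h2 : TT M o l (M.σ.symm d)
    · by_cases h3 : markV M o l d
      · rw [BB, if_pos h2, if_pos h1, if_pos h3]
        by_cases hv : M.fc d = f <;> simp [visits, List.countP_cons, h2, h3, n3, hv]
      · rw [BB, if_pos h2, if_pos h1, if_neg h3]
        simp [visits, List.countP_cons, visits, List.countP_cons, h2, h3, n3]
    · have n4 : ¬ markV M o l d := fun hm => h2 (hm.1 _ (h.vt_prev d))
      rw [BB, if_neg h2, if_pos h1]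
      by_cases hv : M.fc d = f <;> simp [visits, List.countP_cons, h1, h2, n3, n4, hv]
  · have n4 : ¬ markV M o l d := fun hm => h1 (hm.1 _ rfl)
    by_cases h2 : TT M o l (M.σ.symm d)
    · have n3 : ¬ markF M o os l d := fun hm => (h.markF_spec hm).2.2.1 h2
      rw [BB, if_pos h2, if_neg h1]
      simp [visits, List.countP_cons, h1, n3, n4]
    · by_cases h3 : markF M o os l d
      · rw [BB, if_neg h2, if_neg h1, if_pos h3]
        by_cases hv : M.fc d = f <;> simp [visits, List.countP_cons, h1, h3, n4, hv]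
      · rw [BB, if_neg h2, if_neg h1, if_neg h3]
        simp [visits, List.countP_cons, visits, List.countP_cons, h1, h3, n4]

omit h in
lemma s₁_support (h : Sch M s₁ s₂ s₃ o os l) : s₁ ∈ (ψ M o l).support := by
  rw [Perm.mem_support]
  intro he
  obtain ⟨n, hn⟩ := (h.orbit (M.α s₁)).exists_nat_pow_eq
  have : ((ψ M o l) ^ n) s₁ = s₁ := by
    clear hn
    induction n with
    | zero => rfl
    | succ n ih => rw [pow_succ, Perm.mul_apply, he, ih]
  rw [this] at hn
  exact M.α_ne s₁ hn.symm

open Classical in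
/-- The closed walk. -/
theorem walk : ∃ w : List (V ⊕ F), w.IsChain (IncM M) ∧
    (∃ a b, w.head? = some a ∧ w.getLast? = some b ∧ IncM M b a) ∧
    (∀ x, 1 ≤ visits w x ∧ visits w x ≤ 2) ∧
    (∀ v, (VS M o l v).card ≤ visits w (Sum.inl v)) ∧
    (∀ f, (FS M o l f).card ≤ visits w (Sum.inr f)) := by
  set L := (ψ M o l).toList s₁ with hL
  have hsupp := h.s₁_support
  have hmem : ∀ d, d ∈ L := fun d => Perm.mem_toList_iff.2 ⟨h.orbit d, hsupp⟩
  have hnd : L.Nodup := Perm.nodup_toList _ _
  have hLu : L.toFinset = univ := by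
    ext d; simp [hmem d]
  set w := L.flatMap h.BB with hw
  have hsum : ∀ x, visits w x = ∑ d, visits (h.BB d) x := by
    intro x
    rw [hw, visits, List.countP_flatMap, ← hLu, List.sum_toFinset _ hnd]
    rfl
  have hcv : ∀ v, visits w (Sum.inl v) = (VS M o l v).card +
      (univ.filter (fun c => M.vt c = v ∧ markV M o l c)).card +
      (univ.filter (fun c => M.vt c = v ∧ markF M o os l c)).card := by
    intro v
    rw [hsum, Finset.sum_congr rfl (fun d _ => h.count_inl d v), Finset.sum_add_distrib,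
        Finset.sum_add_distrib]
    simp only [Finset.sum_boole, Nat.cast_id]
    simp only [VS]
  have hcf : ∀ f, visits w (Sum.inr f) = (FS M o l f).card +
      (univ.filter (fun c => M.fc c = f ∧ markV M o l c)).card +
      (univ.filter (fun c => M.fc c = f ∧ markF M o os l c)).card := by
    intro f
    rw [hsum, Finset.sum_congr rfl (fun d _ => h.count_inr d f), Finset.sum_add_distrib,
        Finset.sum_add_distrib]
    simp only [Finset.sum_boole, Nat.cast_id]
    simp only [FS]
  have hcount : ∀ x, 1 ≤ visits w x ∧ visits w x ≤ 2 := by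
    rintro (v | f)
    · rw [hcv]; exact h.countV v
    · rw [hcf]; exact h.countF f
  have hWF : WF (IncM M) (h.QQ s₁) w (h.QQ s₁) := by
    have h1 := WF.flatMap (R := IncM M) (ψ M o l) h.BB h.QQ h.WF_BB
      ((ψ M o l).cycleOf s₁).support.card s₁
    have h2 : (ψ M o l)^[((ψ M o l).cycleOf s₁).support.card] s₁ = s₁ := by
      rw [Perm.iterate_eq_pow]
      have h3 := Perm.pow_mod_card_support_cycleOf_self_apply (ψ M o l)
        ((ψ M o l).cycleOf s₁).support.card s₁
      rw [Nat.mod_self, pow_zero] at h3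
      exact h3.symm
    rw [h2] at h1
    exact h1
  have hne : w ≠ [] := by
    intro he
    have := (hcount (Sum.inl (M.vt s₁))).1
    rw [he] at this
    simp [visits] at this
  obtain ⟨x, m, hxm⟩ := List.exists_cons_of_ne_nil hne
  refine ⟨w, (hWF.isChain).tail, ⟨x, h.QQ s₁, by rw [hxm]; rfl, ?_, ?_⟩, hcount,
    fun v => by rw [hcv]; omega, fun f => by rw [hcf]; omega⟩
  · have := hWF.getLast
    rw [hxm] at this ⊢
    rwa [List.getLast?_cons_cons] at this
  · rw [hxm] at hWF
    exact hWF.1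

end Sch

end

end Helper28.VF
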